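import Mathlib

set_option autoImplicit false

namespace Pool.Agent.Socle

open MvPolynomial

/-- The natural action of a square matrix `g` on the polynomial ring `S(V)`, `V = K^n`: the algebra
map sending the `j`-th basis vector `x_j` to `g x_j = ∑ i, g i j • x_i`. -/
noncomputable def symAct {K : Type*} [Field K] {n : ℕ} (g : Matrix (Fin n) (Fin n) K) :
    MvPolynomial (Fin n) K →ₐ[K] MvPolynomial (Fin n) K :=
  MvPolynomial.aeval (fun j => ∑ i, MvPolynomial.C (g i j) * MvPolynomial.X i)

variable {K : Type*} [Field K] {n : ℕ}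

/-- The linear form attached to a vector. -/
noncomputable def lin (v : Fin n → K) : MvPolynomial (Fin n) K := ∑ i, C (v i) * X i

theorem symAct_X (g : Matrix (Fin n) (Fin n) K) (j : Fin n) :
    symAct g (X j) = lin (fun i => g i j) := by
  rw [symAct, aeval_X, lin]

theorem symAct_lin (g : Matrix (Fin n) (Fin n) K) (v : Fin n → K) :
    symAct g (lin v) = lin (g.mulVec v) := by
  rw [lin, map_sum]
  simp only [map_mul, symAct_X, algHom_C, algebraMap_eq]
  simp only [lin, Finset.mul_sum, Matrix.mulVec, dotProduct, map_sum, map_mul, Finset.sum_mul]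
  rw [Finset.sum_comm]
  refine Finset.sum_congr rfl fun i _ => Finset.sum_congr rfl fun j _ => ?_
  ring

theorem symAct_one : symAct (1 : Matrix (Fin n) (Fin n) K) = AlgHom.id K _ := by
  apply MvPolynomial.algHom_ext
  intro j
  rw [symAct_X, lin, AlgHom.id_apply, Finset.sum_eq_single j]
  · simp
  · intro i _ hij
    simp [Matrix.one_apply_ne hij]
  · simp

theorem symAct_mul (g h : Matrix (Fin n) (Fin n) K) :
    symAct (g * h) = (symAct g).comp (symAct h) := by
  apply MvPolynomial.algHom_ext
  intro j
  rw [AlgHom.comp_apply, symAct_X, symAct_X, symAct_lin]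
  congr 1

theorem symAct_mul_apply (g h : Matrix (Fin n) (Fin n) K) (f : MvPolynomial (Fin n) K) :
    symAct (g * h) f = symAct g (symAct h f) := by
  rw [symAct_mul, AlgHom.comp_apply]

theorem lin_isHomogeneous (v : Fin n → K) : (lin v).IsHomogeneous 1 := by
  apply IsHomogeneous.sum
  intro i _
  exact isHomogeneous_C_mul_X _ _

theorem symAct_isHomogeneous (g : Matrix (Fin n) (Fin n) K) {f : MvPolynomial (Fin n) K} {m : ℕ}
    (hf : f.IsHomogeneous m) : (symAct g f).IsHomogeneous m := by
  have := hf.aeval (fun j => ∑ i, MvPolynomial.C (g i j) * MvPolynomial.X i)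
    (fun j => lin_isHomogeneous (fun i => g i j))
  rwa [one_mul] at this

theorem coeff_lin (v : Fin n → K) (i : Fin n) : coeff (Finsupp.single i 1) (lin v) = v i := by
  rw [lin, coeff_sum, Finset.sum_eq_single i]
  · simp
  · intro j _ hj
    rw [coeff_C_mul, coeff_X, if_neg, mul_zero]
    intro h
    exact hj (Finsupp.single_left_injective one_ne_zero h)
  · simp

theorem lin_injective : Function.Injective (lin : (Fin n → K) → MvPolynomial (Fin n) K) := by
  intro v w h
  funext i
  rw [← coeff_lin v i, ← coeff_lin w i, h]

theorem symAct_injective : Function.Injective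
    (symAct : Matrix (Fin n) (Fin n) K → MvPolynomial (Fin n) K →ₐ[K] MvPolynomial (Fin n) K) := by
  intro g h e
  ext i j
  have : lin (fun i => g i j) = lin (fun i => h i j) := by
    rw [← symAct_X, ← symAct_X, e]
  exact congrFun (lin_injective this) i

/-- The invariants of `GL_n(K)` in the polynomial ring. -/
noncomputable def invariants (K : Type*) [Field K] (n : ℕ) :
    Subalgebra K (MvPolynomial (Fin n) K) where
  carrier := {f | ∀ g : GL (Fin n) K, symAct (g : Matrix (Fin n) (Fin n) K) f = f}
  mul_mem' := by
    intro a b ha hb g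
    rw [map_mul, ha g, hb g]
  add_mem' := by
    intro a b ha hb g
    rw [map_add, ha g, hb g]
  algebraMap_mem' := by
    intro r g
    simp

theorem mem_invariants {f : MvPolynomial (Fin n) K} :
    f ∈ invariants K n ↔ ∀ g : GL (Fin n) K, symAct (g : Matrix (Fin n) (Fin n) K) f = f :=
  Iff.rfl

/-- A spanning family of `|GL_n(K)|` elements over the invariants is independent over them. -/
theorem indep_of_span [Fintype (GL (Fin n) K)] {A : Type*} [Fintype A]
    (b : A → MvPolynomial (Fin n) K)
    (hcard : Fintype.card (GL (Fin n) K) = Fintype.card A)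
    (hspan : ∀ f : MvPolynomial (Fin n) K, ∃ c : A → MvPolynomial (Fin n) K,
      (∀ a, c a ∈ invariants K n) ∧ f = ∑ a, c a * b a)
    (c : A → MvPolynomial (Fin n) K) (hc : ∀ a, c a ∈ invariants K n)
    (h0 : ∑ a, c a * b a = 0) : c = 0 := by
  classical
  obtain ⟨e⟩ : Nonempty (GL (Fin n) K ≃ A) := ⟨Fintype.equivOfCardEq hcard⟩
  let T : Matrix (GL (Fin n) K) (GL (Fin n) K) (MvPolynomial (Fin n) K) :=
    fun g a => symAct (g : Matrix (Fin n) (Fin n) K) (b (e a))
  have hdet : T.det ≠ 0 := by
    intro hdet
    obtain ⟨v, hv0, hv⟩ := Matrix.exists_vecMul_eq_zero_iff.mpr hdet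
    have h1 : ∀ a : A, ∑ g : GL (Fin n) K, v g * symAct (g : Matrix (Fin n) (Fin n) K) (b a) = 0 := by
      intro a
      have := congrFun hv (e.symm a)
      simpa [Matrix.vecMul, dotProduct, T] using this
    have h2 : ∀ f : MvPolynomial (Fin n) K,
        ∑ g : GL (Fin n) K, v g * symAct (g : Matrix (Fin n) (Fin n) K) f = 0 := by
      intro f
      obtain ⟨c, hc, rfl⟩ := hspan f
      have : ∀ g : GL (Fin n) K, v g * symAct (g : Matrix (Fin n) (Fin n) K) (∑ a, c a * b a) =
          ∑ a, c a * (v g * symAct (g : Matrix (Fin n) (Fin n) K) (b a)) := by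
        intro g
        rw [map_sum, Finset.mul_sum]
        refine Finset.sum_congr rfl fun a _ => ?_
        rw [map_mul, mem_invariants.mp (hc a) g]
        ring
      simp only [this]
      rw [Finset.sum_comm]
      simp only [← Finset.mul_sum, h1, mul_zero, Finset.sum_const_zero]
    have hind := linearIndependent_monoidHom (MvPolynomial (Fin n) K) (MvPolynomial (Fin n) K)
    have hinj : Function.Injective (fun g : GL (Fin n) K =>
        ((symAct (g : Matrix (Fin n) (Fin n) K) :
          MvPolynomial (Fin n) K →ₐ[K] MvPolynomial (Fin n) K) :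
          MvPolynomial (Fin n) K →* MvPolynomial (Fin n) K)) := by
      intro g h hgh
      apply Units.ext
      apply symAct_injective
      apply AlgHom.ext
      intro f
      exact DFunLike.congr_fun hgh f
    have hind2 := hind.comp _ hinj
    rw [Fintype.linearIndependent_iff] at hind2
    have := hind2 v (by
      funext f
      have := h2 f
      simpa [Finset.sum_apply] using this)
    exact hv0 (funext this)
  have h3 : T.mulVec (fun g => c (e g)) = 0 := by
    funext g
    have := congrArg (symAct (g : Matrix (Fin n) (Fin n) K)) h0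
    rw [map_zero, map_sum] at this
    simp only [Matrix.mulVec, dotProduct, Pi.zero_apply, T]
    rw [← this, ← Equiv.sum_comp e]
    refine Finset.sum_congr rfl fun a _ => ?_
    rw [map_mul, mem_invariants.mp (hc _) g]
    ring
  have h4 := Matrix.eq_zero_of_mulVec_eq_zero hdet h3
  funext a
  have := congrFun h4 (e.symm a)
  simpa using this

end Pool.Agent.Socle
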