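import Pool.Agent.Socle.Equivariance

set_option autoImplicit false
set_option linter.unusedSectionVars false

namespace Pool.Agent.Socle

open MvPolynomial

section General

variable {n : ℕ} {μ : YoungDiagram}

theorem IsRel.add {A : Type*} [AddCommGroup A] {f g : Fill n μ → A}
    (hf : IsRel f) (hg : IsRel g) : IsRel (fun T => f T + g T) := by
  refine ⟨fun κ hκ T => ?_, fun Z hZ T => ?_⟩
  · change f (T ∘ κ) + g (T ∘ κ) = _
    rw [hf.1 κ hκ T, hg.1 κ hκ T, smul_add]
  · have h1 := hf.2 Z hZ T
    have h2 := hg.2 Z hZ T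
    simp only [smul_add, Finset.sum_add_distrib]
    rw [h1, h2, add_zero]

theorem isRel_zero {A : Type*} [AddCommGroup A] : IsRel (fun _ : Fill n μ => (0 : A)) :=
  ⟨fun κ _ T => by simp, fun Z _ T => by simp⟩

theorem IsRel.cancel {R : Type*} [CommRing R] [IsDomain R] {f : Fill n μ → R} {x : R}
    (hx : x ≠ 0) (h : IsRel (fun T => x * f T)) : IsRel f := by
  refine ⟨fun κ hκ T => ?_, fun Z hZ T => ?_⟩
  · apply mul_left_cancel₀ hx
    have := h.1 κ hκ T
    rw [← mul_smul_comm] at this
    exact this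
  · apply mul_left_cancel₀ hx
    have := h.2 Z hZ T
    rw [mul_zero, Finset.mul_sum, ← this]
    refine Finset.sum_congr rfl fun σ _ => ?_
    rw [mul_smul_comm]

/-- A weight function which is invariant under permutations of the cells. -/
theorem IsRel.twist {A B : Type*} [AddCommGroup A] [AddCommGroup B] {f : Fill n μ → A}
    (hf : IsRel f) (w : Fill n μ → ℕ) (hw : ∀ (J : Fill n μ) (σ : Equiv.Perm μ.cells),
      w (J ∘ σ) = w J) (φ : ℕ → A →+ B) : IsRel (fun J => φ (w J) (f J)) := by
  refine ⟨fun κ hκ T => ?_, fun Z hZ T => ?_⟩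
  · change φ (w (T ∘ κ)) (f (T ∘ κ)) = _
    rw [hw, hf.1 κ hκ T, map_zsmul]
  · have := congrArg (φ (w T)) (hf.2 Z hZ T)
    rw [map_zero, map_sum] at this
    rw [← this]
    refine Finset.sum_congr rfl fun σ _ => ?_
    change (Equiv.Perm.sign σ : ℤ) • φ (w (T ∘ σ)) (f (T ∘ σ)) = _
    rw [hw, map_zsmul]

end General

variable {K : Type*} [Field K] [Fintype K] {n : ℕ} {μ : YoungDiagram}

/-- The weight of a filling. -/
def wt (q : ℕ) (J : Fill n μ) : ℕ := ∑ c, q ^ (J c : ℕ)

theorem wt_comp (q : ℕ) (J : Fill n μ) (σ : Equiv.Perm μ.cells) : wt q (J ∘ σ) = wt q J :=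
  Equiv.sum_comp σ fun c => q ^ (J c : ℕ)

/-- The degree of the Moore determinant. -/
def NN (K : Type*) [Fintype K] (n : ℕ) : ℕ := ∑ i : Fin n, Fintype.card K ^ (i : ℕ)

/-- The total shift. -/
def sh (K : Type*) [Fintype K] (k : ℕ) (J : Fill n μ) : ℕ :=
  k * NN K n + wt (Fintype.card K) J

theorem sh_comp (k : ℕ) (J : Fill n μ) (σ : Equiv.Perm μ.cells) :
    sh K k (J ∘ σ) = sh K k J := by
  rw [sh, sh, wt_comp]

/-- The functions on fillings which parametrize the intertwining maps. -/
noncomputable def FF (K : Type*) [Field K] [Fintype K] (n : ℕ) (μ : YoungDiagram) (k m : ℕ) :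
    Submodule K (Fill n μ → MvPolynomial (Fin n) K) where
  carrier := {F | IsRel F ∧ ∀ J, F J ∈ DD K n m (sh K k J)}
  add_mem' := by
    rintro F G ⟨h1, h2⟩ ⟨h3, h4⟩
    exact ⟨h1.add h3, fun J => Submodule.add_mem _ (h2 J) (h4 J)⟩
  zero_mem' := ⟨isRel_zero, fun J => Submodule.zero_mem _⟩
  smul_mem' := by
    rintro c F ⟨h1, h2⟩
    exact ⟨h1.map (LinearMap.lsmul K (MvPolynomial (Fin n) K) c).toAddMonoidHom,
      fun J => Submodule.smul_mem _ c (h2 J)⟩

theorem mem_FF {k m : ℕ} {F : Fill n μ → MvPolynomial (Fin n) K} :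
    F ∈ FF K n μ k m ↔ IsRel F ∧ ∀ J, F J ∈ DD K n m (sh K k J) := Iff.rfl

theorem semi_b {k : ℕ} {f : Fill n μ → MvPolynomial (Fin n) K} (heq : IsEquiv K n μ k f)
    (g : GL (Fin n) K) (I : Fill n μ) :
    symAct (g : Matrix (Fin n) (Fin n) K) (tmul f (moore K n).adjugate I) =
      C ((g : Matrix (Fin n) (Fin n) K).det ^ (k + μ.card)) * tmul f (moore K n).adjugate I := by
  have h1 := tmul_map (symAct (g : Matrix (Fin n) (Fin n) K)).toRingHom f
    (moore K n).adjugate I
  have h2 : (moore K n).adjugate.map (symAct (g : Matrix (Fin n) (Fin n) K)).toRingHom =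
      ((g : Matrix (Fin n) (Fin n) K).map C).adjugate * (moore K n).adjugate :=
    symAct_adjugate _
  have h3 : (fun J => (symAct (g : Matrix (Fin n) (Fin n) K)).toRingHom (f J)) =
      fun J => C ((g : Matrix (Fin n) (Fin n) K).det ^ k) *
        tmul f ((g : Matrix (Fin n) (Fin n) K).map C) J := by
    funext J
    exact heq g J
  rw [h2, h3, tmul_const_mul] at h1
  refine h1.trans ?_
  have h4 : ((g : Matrix (Fin n) (Fin n) K).map
      (C : K →+* MvPolynomial (Fin n) K)).det = C (g : Matrix (Fin n) (Fin n) K).det :=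
    (RingHom.map_det C (g : Matrix (Fin n) (Fin n) K)).symm
  rw [← tmul_mul, ← Matrix.mul_assoc, Matrix.mul_adjugate, Matrix.smul_mul, Matrix.one_mul]
  beta_reduce
  rw [tmul_smul, h4, pow_add, C_mul, C_pow, C_pow]
  ring

theorem rowLen_le_card (μ : YoungDiagram) : μ.rowLen 0 ≤ μ.card := by
  rw [YoungDiagram.rowLen_eq_card]
  exact Finset.card_le_card (Finset.filter_subset _ _)

theorem X_pow_dvd_b (hd : ((μ.card.factorial : ℕ) : K) ≠ 0)
    {f : Fill n μ → MvPolynomial (Fin n) K} (hf : IsRel f) (j : Fin n) (I : Fill n μ) :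
    X j ^ (μ.card - μ.rowLen 0) ∣ tmul f (moore K n).adjugate I := by
  classical
  rw [tmul]
  apply Finset.dvd_sum
  intro J _
  by_cases hJ : μ.rowLen 0 < (Finset.univ.filter fun c => J c = j).card
  · obtain ⟨c, hc, c', hc', hne, hcol⟩ := Finset.exists_ne_map_eq_of_card_lt_of_maps_to
      (t := Finset.range (μ.rowLen 0)) (f := fun c : μ.cells => c.1.2) (by simpa using hJ) (by
        intro c _
        have h1 : (c.1.1, c.1.2) ∈ μ := (YoungDiagram.mem_cells _).mp c.2
        have h2 : ((0 : ℕ), c.1.2) ∈ μ := μ.up_left_mem (Nat.zero_le _) le_rfl h1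
        simpa using YoungDiagram.mem_iff_lt_rowLen.mp h2)
    rw [Finset.mem_filter] at hc hc'
    rw [rel_eq_zero_of_repeat hd hf hne hcol (hc.2.trans hc'.2.symm), zero_mul]
    exact dvd_zero _
  · apply Dvd.dvd.mul_left
    rw [not_lt] at hJ
    have h1 : (Finset.univ.filter fun c => J c = j).card +
        (Finset.univ.filter fun c => ¬ J c = j).card = μ.card := by
      rw [Finset.card_filter_add_card_filter_not, Finset.card_univ, Fintype.card_coe]
    have h2 : μ.card - μ.rowLen 0 ≤ (Finset.univ.filter fun c => ¬ J c = j).card := by omega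
    refine (pow_dvd_pow _ h2).trans ?_
    refine Dvd.dvd.trans ?_ (Finset.prod_dvd_prod_of_subset
      (Finset.univ.filter fun c => ¬ J c = j) Finset.univ _ (Finset.filter_subset _ _))
    rw [← Finset.prod_const]
    apply Finset.prod_dvd_prod_of_dvd
    intro c hc
    rw [Finset.mem_filter] at hc
    exact X_dvd_adjugate hc.2 (I c)

theorem prod_moore_isHomogeneous (k : ℕ) (J I : Fill n μ) :
    (LL K n ^ k * ∏ c, moore K n (J c) (I c)).IsHomogeneous (sh K k J) := by
  apply IsHomogeneous.mul
  · rw [mul_comm]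
    exact LL_isHomogeneous.pow k
  · apply IsHomogeneous.prod
    intro c _
    exact isHomogeneous_X_pow _ _

theorem exists_F (hd : ((μ.card.factorial : ℕ) : K) ≠ 0) {k m : ℕ}
    (hk : k + μ.rowLen 0 + 2 ≤ Fintype.card K) {f : Fill n μ → MvPolynomial (Fin n) K}
    (hrel : IsRel f) (heq : IsEquiv K n μ k f) (hhom : ∀ J, (f J).IsHomogeneous m) :
    ∃ F ∈ FF K n μ k m, ∀ I, f I = LL K n ^ k * tmul F (moore K n) I := by
  have hle := rowLen_le_card μ
  have h1 : ∀ I, ∃ F ∈ invariants K n,
      tmul f (moore K n).adjugate I = LL K n ^ (k + μ.card) * F := fun I =>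
    semi_div (fun g => semi_b heq g I) (fun j => X_pow_dvd_b hd hrel j I) (by omega)
  choose F hFinv hF using h1
  have h2 : ∀ I, f I = LL K n ^ k * tmul F (moore K n) I := by
    intro I
    have h3 := congrFun (tmul_mul f (moore K n).adjugate (moore K n)) I
    rw [Matrix.adjugate_mul, tmul_smul, tmul_one, show tmul f (moore K n).adjugate =
      fun I => LL K n ^ (k + μ.card) * F I from funext hF, tmul_const_mul] at h3
    change LL K n ^ μ.card * f I = _ at h3
    apply mul_left_cancel₀ (pow_ne_zero μ.card (LL_ne_zero (K := K) (n := n)))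
    rw [h3, pow_add]
    ring
  have h4 : IsRel F := by
    have h5 := tmul_isRel hrel (moore K n).adjugate
    rw [show tmul f (moore K n).adjugate =
      fun I => LL K n ^ (k + μ.card) * F I from funext hF] at h5
    exact h5.cancel (pow_ne_zero _ LL_ne_zero)
  refine ⟨fun J => shiftComp K n m (sh K k J) (F J), ⟨?_, ?_⟩, ?_⟩
  · exact h4.twist (sh K k) (sh_comp k) (fun w => (shiftComp K n m w).toAddMonoidHom)
  · intro J
    exact shiftComp_mem_DD _ _ (hFinv J)
  · intro I
    have h5 : homogeneousComponent m (f I) = f I := homogeneousComponent_eq_self (hhom I)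
    rw [← h5, h2 I, tmul, tmul, Finset.mul_sum, Finset.mul_sum, map_sum]
    refine Finset.sum_congr rfl fun J _ => ?_
    rw [show LL K n ^ k * (F J * ∏ c, moore K n (J c) (I c)) =
      F J * (LL K n ^ k * ∏ c, moore K n (J c) (I c)) by ring,
      shiftComp_mul _ _ (prod_moore_isHomogeneous k J I)]
    ring

theorem isEquiv_of_F {k m : ℕ} {F : Fill n μ → MvPolynomial (Fin n) K} (hF : F ∈ FF K n μ k m) :
    IsEquiv K n μ k (fun I => LL K n ^ k * tmul F (moore K n) I) := by
  intro g T
  have h1 := tmul_map (symAct (g : Matrix (Fin n) (Fin n) K)).toRingHom F (moore K n) T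
  have h2 : (moore K n).map (symAct (g : Matrix (Fin n) (Fin n) K)).toRingHom =
      moore K n * (g : Matrix (Fin n) (Fin n) K).map C := symAct_moore _
  have h3 : (fun J => (symAct (g : Matrix (Fin n) (Fin n) K)).toRingHom (F J)) = F := by
    funext J
    exact (hF.2 J).1 g
  rw [h2, h3, tmul_mul] at h1
  have h4 : symAct (g : Matrix (Fin n) (Fin n) K) (tmul F (moore K n) T) =
    tmul (tmul F (moore K n)) ((g : Matrix (Fin n) (Fin n) K).map C) T := h1
  rw [map_mul, map_pow, symAct_LL, h4, tmul_const_mul, mul_pow, C_pow]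
  ring

theorem isHomogeneous_of_F {k m : ℕ} {F : Fill n μ → MvPolynomial (Fin n) K}
    (hF : F ∈ FF K n μ k m) (I : Fill n μ) :
    (LL K n ^ k * tmul F (moore K n) I).IsHomogeneous m := by
  rw [tmul, Finset.mul_sum]
  apply IsHomogeneous.sum
  intro J _
  rw [show LL K n ^ k * (F J * ∏ c, moore K n (J c) (I c)) =
      F J * (LL K n ^ k * ∏ c, moore K n (J c) (I c)) by ring]
  exact DD_mul_homogeneous (hF.2 J) (prod_moore_isHomogeneous k J I)

theorem isRel_of_F {k m : ℕ} {F : Fill n μ → MvPolynomial (Fin n) K} (hF : F ∈ FF K n μ k m) :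
    IsRel (fun I => LL K n ^ k * tmul F (moore K n) I) :=
  (tmul_isRel hF.1 (moore K n)).map (AddMonoidHom.mulLeft (LL K n ^ k))

/-- Evaluation of intertwining maps on the spanning family. -/
noncomputable def evalMap (K : Type*) [Field K] (n : ℕ) (μ : YoungDiagram) (k m : ℕ) :
    (simpleRep K n μ k).IntertwiningMap (symRep K n m) →ₗ[K]
      (Fill n μ → MvPolynomial (Fin n) K) where
  toFun Φ := fun J => (Φ.toLinearMap (yR K n μ (tb K n μ J)) : MvPolynomial (Fin n) K)
  map_add' _ _ := rfl
  map_smul' _ _ := rfl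

/-- The parametrization. -/
noncomputable def parMap (K : Type*) [Field K] [Fintype K] (n : ℕ) (μ : YoungDiagram)
    (k m : ℕ) : FF K n μ k m →ₗ[K] (Fill n μ → MvPolynomial (Fin n) K) where
  toFun F := fun I => LL K n ^ k * tmul (F : Fill n μ → MvPolynomial (Fin n) K) (moore K n) I
  map_add' F G := by
    funext I
    rw [Pi.add_apply, ← mul_add, tmul, tmul, tmul, ← Finset.sum_add_distrib]
    congr 1
    refine Finset.sum_congr rfl fun J _ => ?_
    rw [← add_mul]
    rfl
  map_smul' c F := by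
    funext I
    rw [Pi.smul_apply, RingHom.id_apply, ← mul_smul_comm, tmul, tmul, Finset.smul_sum]
    congr 1
    refine Finset.sum_congr rfl fun J _ => ?_
    rw [← smul_mul_assoc]
    rfl

theorem evalMap_injective (k m : ℕ) : Function.Injective (evalMap K n μ k m) := by
  intro Φ Ψ h
  apply Representation.IntertwiningMap.ext
  apply LinearMap.ext
  intro v
  obtain ⟨x, rfl⟩ := yR_surjective v
  have h1 : Φ.toLinearMap ∘ₗ yR K n μ = Ψ.toLinearMap ∘ₗ yR K n μ := by
    apply (tb K n μ).ext
    intro T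
    apply Subtype.ext
    exact congrFun h T
  exact LinearMap.congr_fun h1 x

theorem parMap_injective (k m : ℕ) : Function.Injective (parMap K n μ k m) := by
  rw [injective_iff_map_eq_zero]
  intro F h
  apply Subtype.ext
  funext I
  have h1 : tmul (F : Fill n μ → MvPolynomial (Fin n) K) (moore K n) = fun _ => 0 := by
    funext J
    have := congrFun h J
    exact (mul_eq_zero.mp this).resolve_left (pow_ne_zero _ LL_ne_zero)
  have h2 := congrFun (tmul_mul (F : Fill n μ → MvPolynomial (Fin n) K) (moore K n)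
    (moore K n).adjugate) I
  rw [Matrix.mul_adjugate, tmul_smul, tmul_one, h1, tmul] at h2
  simp only [zero_mul, Finset.sum_const_zero] at h2
  exact (mul_eq_zero.mp h2).resolve_left (pow_ne_zero _ LL_ne_zero)

theorem range_eq (hd : ((μ.card.factorial : ℕ) : K) ≠ 0) {k : ℕ} (m : ℕ)
    (hk : k + μ.rowLen 0 + 2 ≤ Fintype.card K) :
    LinearMap.range (evalMap K n μ k m) = LinearMap.range (parMap K n μ k m) := by
  apply le_antisymm
  · rintro _ ⟨Φ, rfl⟩
    obtain ⟨F, hF, h⟩ := exists_F (m := m) hd hk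
      (f := evalMap K n μ k m Φ)
      ((isRelK_yR.map ((homogeneousSubmodule (Fin n) K m).subtype ∘ₗ Φ.toLinearMap)).isRel)
      (isEquiv_of_intertwining k m Φ)
      (fun J => (mem_homogeneousSubmodule _ _).mp (Φ.toLinearMap (yR K n μ (tb K n μ J))).2)
    exact ⟨⟨F, hF⟩, (funext h).symm⟩
  · rintro _ ⟨⟨F, hF⟩, rfl⟩
    have h1 : IsRel (fun I => (⟨LL K n ^ k * tmul F (moore K n) I,
        (mem_homogeneousSubmodule _ _).mpr (isHomogeneous_of_F hF I)⟩ :
          homogeneousSubmodule (Fin n) K m)) := by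
      have h2 := isRel_of_F hF
      refine ⟨fun κ hκ T => ?_, fun Z hZ T => ?_⟩
      · apply Subtype.ext
        exact h2.1 κ hκ T
      · apply Subtype.ext
        rw [Submodule.coe_sum, Submodule.coe_zero, ← h2.2 Z hZ T]
        rfl
    obtain ⟨Φ, hΦ⟩ := exists_linear_of_isRel hd h1
    have h3 : (fun J => (Φ (yR K n μ (tb K n μ J)) : MvPolynomial (Fin n) K)) =
        fun I => LL K n ^ k * tmul F (moore K n) I := by
      funext J
      rw [hΦ J]
    have h4 := intertwining_of_isEquiv k m Φ (by rw [h3]; exact isEquiv_of_F hF)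
    exact ⟨LinearMap.intertwiningMap_of_isIntertwiningMap _ _ Φ h4, h3⟩

/-- Restriction to semistandard tableaux. -/
noncomputable def resMap (K : Type*) [Field K] [Fintype K] (n : ℕ) (μ : YoungDiagram)
    (k m : ℕ) : FF K n μ k m →ₗ[K]
      (∀ T : {T : Fill n μ // IsSemistandard T}, DD K n m (sh K k (T : Fill n μ))) where
  toFun F := fun T => ⟨(F : Fill n μ → MvPolynomial (Fin n) K) T, F.2.2 T⟩
  map_add' _ _ := rfl
  map_smul' _ _ := rfl

theorem resMap_bijective (hd : ((μ.card.factorial : ℕ) : K) ≠ 0) (k m : ℕ) :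
    Function.Bijective (resMap K n μ k m) := by
  constructor
  · rw [injective_iff_map_eq_zero]
    intro F h
    apply Subtype.ext
    funext I
    refine rel_unique (K := K) hd F.2.1 ?_ I
    intro T hT
    exact congrArg Subtype.val (congrFun h ⟨T, hT⟩)
  · intro c
    set Ψ := (schurBasis (n := n) hd).constr K
      (fun T => (c T : MvPolynomial (Fin n) K)) with hΨ
    have hval : ∀ T (hT : IsSemistandard T), Ψ (yR K n μ (tb K n μ T)) = c ⟨T, hT⟩ := by
      intro T hT
      have h2 := (schurBasis (n := n) hd).constr_basis K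
        (fun T => (c T : MvPolynomial (Fin n) K)) ⟨T, hT⟩
      rw [schurBasis_apply] at h2
      exact h2
    have hrel : IsRel (fun J => Ψ (yR K n μ (tb K n μ J))) := (isRelK_yR.map Ψ).isRel
    have hinv : ∀ J, Ψ (yR K n μ (tb K n μ J)) ∈ invariants K n := by
      intro J g
      have h3 := rel_unique (K := K) hd
        ((hrel.map (symAct (g : Matrix (Fin n) (Fin n) K)).toLinearMap.toAddMonoidHom).sub hrel)
        (by
          intro T hT
          rw [hval T hT]
          exact sub_eq_zero.mpr ((c ⟨T, hT⟩).2.1 g)) J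
      exact sub_eq_zero.mp h3
    have hshift : ∀ J, shiftComp K n m (sh K k J) (Ψ (yR K n μ (tb K n μ J))) =
        Ψ (yR K n μ (tb K n μ J)) := by
      intro J
      have h3 := rel_unique (K := K) hd
        ((hrel.twist (sh K k) (sh_comp k)
          (fun w => (shiftComp K n m w).toAddMonoidHom)).sub hrel)
        (by
          intro T hT
          rw [hval T hT]
          exact sub_eq_zero.mpr (c ⟨T, hT⟩).2.2) J
      exact sub_eq_zero.mp h3
    refine ⟨⟨fun J => Ψ (yR K n μ (tb K n μ J)), hrel, fun J => ⟨hinv J, hshift J⟩⟩, ?_⟩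
    funext T
    apply Subtype.ext
    exact hval T.1 T.2

noncomputable instance : Fintype {T : Fill n μ // IsSemistandard T} := Fintype.ofFinite _

theorem socleMult_eq (hd : ((μ.card.factorial : ℕ) : K) ≠ 0) {k : ℕ} (m : ℕ)
    (hk : k + μ.rowLen 0 + 2 ≤ Fintype.card K) :
    (socleMult K n μ k m : ℤ) =
      ∑ T : {T : Fill n μ // IsSemistandard T},
        PowerSeries.coeff m (PowerSeries.X ^ (sh K k (T : Fill n μ)) * HD K n) := by
  rw [socleMult, schurHomDim,
    ← LinearMap.finrank_range_of_inj (evalMap_injective (K := K) (n := n) k m),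
    range_eq hd m hk, LinearMap.finrank_range_of_inj (parMap_injective k m),
    (LinearEquiv.ofBijective _ (resMap_bijective hd k m)).finrank_eq,
    Module.finrank_pi_fintype]
  push_cast
  refine Finset.sum_congr rfl fun T _ => ?_
  rw [finrank_DD]

end Pool.Agent.Socle
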