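import Pool.Agent.Socle.Action

set_option autoImplicit false

/-!
# Schur functors and socle multiplicities

`K` is a field, `G` a group, `V` a vector space over `K` and `μ` a Young diagram (a partition of
`d = |μ|`). The Schur functor `S_μ` is applied to a representation `V` of `G`; for `d!` invertible
in `K`, `G = GL_n(K)` and `V = K^n` it gives the simple module `L(μ)` of highest weight `μ`.
-/

namespace Pool.Agent.Socle

open scoped TensorProduct

/-- The cells `(i, j)` (row `i`, column `j`) of the Young diagram `μ`. -/
abbrev Cells (μ : YoungDiagram) : Type := μ.cells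

/-- The row group of `μ`: the permutations of the cells of `μ` which preserve every row. -/
def rowPerms (μ : YoungDiagram) : Finset (Equiv.Perm (Cells μ)) :=
  Finset.univ.filter fun σ => ∀ c, (σ c).1.1 = c.1.1

/-- The column group of `μ`: the permutations of the cells of `μ` which preserve every column. -/
def colPerms (μ : YoungDiagram) : Finset (Equiv.Perm (Cells μ)) :=
  Finset.univ.filter fun σ => ∀ c, (σ c).1.2 = c.1.2

section Generic

/-- `V^{⊗ μ}`: the tensor power of `V` with one tensor factor for each cell of the Young
diagram `μ` (so the `d`-th tensor power, `d = |μ|`). -/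
abbrev TensPow (K V : Type*) [Field K] [AddCommMonoid V] [Module K V] (μ : YoungDiagram) :
    Type _ := ⨂[K] _c : Cells μ, V

variable {K G V W : Type*} [Field K] [Group G] [AddCommMonoid V] [Module K V]
  [AddCommMonoid W] [Module K W]

/-- The place permutation action of `Sym(μ)` on `V^{⊗ μ}`. -/
noncomputable def permAct (K V : Type*) [Field K] [AddCommMonoid V] [Module K V]
    {μ : YoungDiagram} (σ : Equiv.Perm (Cells μ)) : TensPow K V μ →ₗ[K] TensPow K V μ :=
  (PiTensorProduct.reindex K (fun _ : Cells μ => V) σ).toLinearMap

/-- The Young symmetrizer of `μ` acting on `V^{⊗ μ}`: antisymmetrize along the columns, then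
symmetrize along the rows. -/
noncomputable def youngSymmetrizer (K V : Type*) [Field K] [AddCommMonoid V] [Module K V]
    (μ : YoungDiagram) : TensPow K V μ →ₗ[K] TensPow K V μ :=
  (∑ ρ ∈ rowPerms μ, permAct K V ρ) ∘ₗ
    (∑ κ ∈ colPerms μ, ((Equiv.Perm.sign κ : ℤ) : K) • permAct K V κ)

/-- The diagonal action of `G` on `V^{⊗ μ}`. -/
noncomputable def tensRep (ρ : Representation K G V) (μ : YoungDiagram) :
    Representation K G (TensPow K V μ) where
  toFun g := PiTensorProduct.map fun _ => ρ g
  map_one' := by
    rw [map_one]
    exact PiTensorProduct.map_id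
  map_mul' g h := by
    rw [map_mul, Module.End.mul_eq_comp, Module.End.mul_eq_comp, ← PiTensorProduct.map_comp]

theorem permAct_comm (ρ : Representation K G V) {μ : YoungDiagram} (σ : Equiv.Perm (Cells μ))
    (g : G) (x : TensPow K V μ) :
    permAct K V σ (tensRep ρ μ g x) = tensRep ρ μ g (permAct K V σ x) := by
  have : permAct K V σ ∘ₗ tensRep ρ μ g = tensRep ρ μ g ∘ₗ permAct K V σ := by
    apply PiTensorProduct.ext
    apply MultilinearMap.ext
    intro f
    simp only [permAct, tensRep, LinearMap.compMultilinearMap_apply, LinearMap.comp_apply,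
      MonoidHom.coe_mk, OneHom.coe_mk, LinearEquiv.coe_coe, PiTensorProduct.map_tprod,
      PiTensorProduct.reindex_tprod]
  exact LinearMap.congr_fun this x

theorem youngSymmetrizer_comm (ρ : Representation K G V) {μ : YoungDiagram}
    (g : G) (x : TensPow K V μ) :
    youngSymmetrizer K V μ (tensRep ρ μ g x) = tensRep ρ μ g (youngSymmetrizer K V μ x) := by
  simp only [youngSymmetrizer, LinearMap.comp_apply, LinearMap.sum_apply, LinearMap.smul_apply,
    permAct_comm, map_sum, map_smul]

/-- The Schur functor `S_μ` applied to the representation `V` of `G`, as a subrepresentation of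
`V^{⊗ μ}`: the image of the Young symmetrizer. -/
noncomputable def schurFunctor (ρ : Representation K G V) (μ : YoungDiagram) :
    Subrepresentation (tensRep ρ μ) where
  toSubmodule := LinearMap.range (youngSymmetrizer K V μ)
  apply_mem_toSubmodule := by
    rintro g _ ⟨x, rfl⟩
    exact ⟨tensRep ρ μ g x, youngSymmetrizer_comm ρ g x⟩

/-- The tensor product of a representation with a one-dimensional representation `χ`. -/
noncomputable def twist (χ : G →* K) (ρ : Representation K G V) : Representation K G V where
  toFun g := χ g • ρ g
  map_one' := by rw [map_one, map_one, one_smul]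
  map_mul' g h := by
    rw [map_mul, map_mul]
    ext x
    simp only [LinearMap.smul_apply, Module.End.mul_apply, map_smul, smul_smul, mul_comm]

/-- `dim Hom_G(S_μ(V) ⊗ χ, W)` for representations `V`, `W` and a one-dimensional representation
`χ` of `G`. -/
noncomputable def schurHomDim (ρ : Representation K G V) (μ : YoungDiagram) (χ : G →* K)
    (σ : Representation K G W) : ℕ :=
  Module.finrank K
    ((twist χ (schurFunctor ρ μ).toRepresentation).IntertwiningMap σ)

end Generic

/-- The natural representation `V = K^n` of `GL_n(K)`. -/
noncomputable def stdRep (K : Type*) [Field K] (n : ℕ) :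
    Representation K (GL (Fin n) K) (Fin n → K) where
  toFun g := Matrix.mulVecLin (g : Matrix (Fin n) (Fin n) K)
  map_one' := by rw [Units.val_one, Matrix.mulVecLin_one]; rfl
  map_mul' g h := by rw [Units.val_mul, Matrix.mulVecLin_mul]; rfl

/-- The one-dimensional representation `Det^k` of `GL_n(K)`. -/
noncomputable def detPow (K : Type*) [Field K] (n k : ℕ) : GL (Fin n) K →* K where
  toFun g := Matrix.det (g : Matrix (Fin n) (Fin n) K) ^ k
  map_one' := by rw [Units.val_one, Matrix.det_one, one_pow]
  map_mul' g h := by rw [Units.val_mul, Matrix.det_mul, mul_pow]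

/-- The representation of `GL_n(K)` on the `m`-th symmetric power `S^m(V)`, the space of
homogeneous polynomials of degree `m` in the basis `x_1, …, x_n` of `V`. -/
noncomputable def symRep (K : Type*) [Field K] (n m : ℕ) :
    Representation K (GL (Fin n) K) (MvPolynomial.homogeneousSubmodule (Fin n) K m) where
  toFun g := (symAct (g : Matrix (Fin n) (Fin n) K)).toLinearMap.restrict
    fun _ hf => symAct_isHomogeneous _ hf
  map_one' := by
    ext x
    simp [symAct_one]
  map_mul' g h := by
    ext x : 2
    simp only [Units.val_mul, symAct_mul, LinearMap.restrict_apply, Module.End.mul_apply]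
    rfl

/-- The number of copies of `L(μ) ⊗ Det^k` in the socle of `S^m(V)`, that is, the dimension of
`Hom_G(L(μ) ⊗ Det^k, S^m(V))`, `G = GL_n(K)`. -/
noncomputable def socleMult (K : Type*) [Field K] (n : ℕ) (μ : YoungDiagram) (k m : ℕ) : ℕ :=
  schurHomDim (stdRep K n) μ (detPow K n k) (symRep K n m)

/-- A filling of `μ` by elements of `{0, …, n-1}` is a semistandard tableau if its rows increase
weakly and its columns increase strictly. -/
def IsSemistandard {μ : YoungDiagram} {n : ℕ} (T : Cells μ → Fin n) : Prop :=
  (∀ c c' : Cells μ, c.1.1 = c'.1.1 → c.1.2 ≤ c'.1.2 → T c ≤ T c') ∧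
    (∀ c c' : Cells μ, c.1.2 = c'.1.2 → c.1.1 < c'.1.1 → T c < T c')

open Classical in
/-- The Schur polynomial `s_μ` in `n` variables: the sum over the semistandard tableaux `T` of
shape `μ` with entries in `{0, …, n-1}` of the monomial `∏_c x_{T(c)}`. -/
noncomputable def schurPoly (n : ℕ) (μ : YoungDiagram) : MvPolynomial (Fin n) ℤ :=
  ∑ T ∈ Finset.univ.filter (IsSemistandard : (Cells μ → Fin n) → Prop),
    ∏ c, MvPolynomial.X (T c)

end Pool.Agent.Socle
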