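import Pool.Agent.Socle.Hilbert

set_option autoImplicit false
set_option linter.unusedSectionVars false

namespace Pool.Agent.Socle

open MvPolynomial

variable {K : Type*} [Field K] [Fintype K] {n : ℕ}

theorem pow_q_sum {ι : Type*} (s : Finset ι) (f : ι → MvPolynomial (Fin n) K) (i : ℕ) :
    (∑ x ∈ s, f x) ^ (Fintype.card K ^ i) = ∑ x ∈ s, f x ^ (Fintype.card K ^ i) := by
  obtain ⟨p, hp⟩ := CharP.exists K
  obtain ⟨r, hpp, hq⟩ := FiniteField.card K p
  have : Fact p.Prime := ⟨hpp⟩
  rw [hq, ← pow_mul]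
  exact sum_pow_char_pow p _ s f

theorem lin_pow (v : Fin n → K) (i : ℕ) :
    lin v ^ (Fintype.card K ^ i) = ∑ l, C (v l) * X l ^ (Fintype.card K ^ i) := by
  rw [lin, pow_q_sum]
  refine Finset.sum_congr rfl fun l _ => ?_
  rw [mul_pow, ← C_pow, FiniteField.pow_card_pow]

/-- The Moore matrix. -/
noncomputable def moore (K : Type*) [Field K] [Fintype K] (n : ℕ) :
    Matrix (Fin n) (Fin n) (MvPolynomial (Fin n) K) :=
  fun i j => X j ^ (Fintype.card K ^ (i : ℕ))

theorem symAct_moore (g : Matrix (Fin n) (Fin n) K) :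
    (moore K n).map (symAct g) = moore K n * g.map C := by
  ext1 i j
  rw [Matrix.map_apply, moore, map_pow, symAct_X, lin_pow, Matrix.mul_apply]
  refine Finset.sum_congr rfl fun l _ => ?_
  rw [Matrix.map_apply, moore, mul_comm]

/-- The determinant of the Moore matrix. -/
noncomputable def LL (K : Type*) [Field K] [Fintype K] (n : ℕ) : MvPolynomial (Fin n) K :=
  (moore K n).det

theorem symAct_LL (g : Matrix (Fin n) (Fin n) K) :
    symAct g (LL K n) = LL K n * C g.det := by
  rw [LL, AlgHom.map_det, AlgHom.mapMatrix_apply, symAct_moore, Matrix.det_mul]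
  congr 1
  exact (RingHom.map_det C g).symm

theorem symAct_adjugate (g : Matrix (Fin n) (Fin n) K) :
    (moore K n).adjugate.map (symAct g) = (g.map C).adjugate * (moore K n).adjugate := by
  rw [← Matrix.adjugate_mul_distrib, ← symAct_moore, ← AlgHom.mapMatrix_apply,
    ← AlgHom.mapMatrix_apply, AlgHom.map_adjugate]

theorem moore_prod (σ : Equiv.Perm (Fin n)) : ∏ i, moore K n (σ i) i =
    monomial (Finsupp.equivFunOnFinite.symm fun i => Fintype.card K ^ (σ i : ℕ)) 1 := by
  rw [monomial_eq, C_1, one_mul, Finsupp.prod_fintype]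
  · rfl
  · intro i
    rw [pow_zero]

theorem LL_ne_zero : LL K n ≠ 0 := by
  intro h
  have h1 := congrArg (coeff (Finsupp.equivFunOnFinite.symm
    fun i : Fin n => Fintype.card K ^ (i : ℕ))) h
  rw [LL, Matrix.det_apply', coeff_sum, coeff_zero, Finset.sum_eq_single 1] at h1
  · rw [moore_prod, Equiv.Perm.sign_one, Units.val_one, Int.cast_one, one_mul,
      coeff_monomial, if_pos] at h1
    · exact one_ne_zero h1
    · rfl
  · intro σ _ hσ
    rw [moore_prod, ← map_intCast (C : K →+* MvPolynomial (Fin n) K), coeff_C_mul,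
      coeff_monomial, if_neg, mul_zero]
    intro h2
    apply hσ
    apply Equiv.ext
    intro i
    have h3 := DFunLike.congr_fun h2 i
    simp only [Finsupp.equivFunOnFinite_symm_apply_apply] at h3
    have h4 := Nat.pow_right_injective (Fintype.one_lt_card (α := K)) h3
    exact Fin.ext h4
  · intro h2
    exact absurd (Finset.mem_univ _) h2

theorem LL_isHomogeneous :
    (LL K n).IsHomogeneous (∑ i : Fin n, Fintype.card K ^ (i : ℕ)) := by
  rw [LL, Matrix.det_apply']
  apply IsHomogeneous.sum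
  intro σ _
  rw [← map_intCast (C : K →+* MvPolynomial (Fin n) K)]
  have h1 : (∏ i, moore K n (σ i) i).IsHomogeneous (∑ i : Fin n, Fintype.card K ^ (σ i : ℕ)) := by
    apply IsHomogeneous.prod
    intro i _
    exact isHomogeneous_X_pow _ _
  rw [Equiv.sum_comp σ fun i : Fin n => Fintype.card K ^ (i : ℕ)] at h1
  have h2 := (isHomogeneous_C (Fin n) ((Equiv.Perm.sign σ : ℤ) : K)).mul h1
  rwa [zero_add] at h2

theorem det_dvd_of_col {R : Type*} [CommRing R] (A : Matrix (Fin n) (Fin n) R) (x : R)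
    (j : Fin n) (h : ∀ i, x ∣ A i j) : x ∣ A.det := by
  rw [Matrix.det_apply']
  apply Finset.dvd_sum
  intro σ _
  apply Dvd.dvd.mul_left
  exact (h (σ j)).trans (Finset.dvd_prod_of_mem _ (Finset.mem_univ j))

theorem X_dvd_LL (j : Fin n) : X j ∣ LL K n := by
  apply det_dvd_of_col _ _ j
  intro i
  exact dvd_pow_self _ (pow_ne_zero _ Fintype.card_ne_zero)

theorem X_dvd_adjugate {j j' : Fin n} (h : j' ≠ j) (i : Fin n) :
    X j ∣ (moore K n).adjugate j' i := by
  rw [Matrix.adjugate_apply]
  apply det_dvd_of_col _ _ j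
  intro r
  rw [Matrix.updateRow_apply]
  split_ifs with hr
  · rw [Pi.single_eq_of_ne h.symm]
    exact dvd_zero _
  · exact dvd_pow_self _ (pow_ne_zero _ Fintype.card_ne_zero)

/-- The matrix sending the `j`-th basis vector to `v` and fixing the others. -/
theorem exists_gl (v : Fin n → K) (hv : v ≠ 0) : ∃ (j : Fin n) (g : GL (Fin n) K),
    symAct (g : Matrix (Fin n) (Fin n) K) (X j) = lin v := by
  obtain ⟨j, hj⟩ := Function.ne_iff.mp hv
  have hdet : ((1 : Matrix (Fin n) (Fin n) K).updateCol j v).det = v j := by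
    rw [← Matrix.cramer_apply, Matrix.cramer_one]
    rfl
  refine ⟨j, Matrix.GeneralLinearGroup.mkOfDetNeZero _ (by rw [hdet]; exact hj), ?_⟩
  rw [symAct_X]
  congr 1
  funext i
  change ((1 : Matrix (Fin n) (Fin n) K).updateCol j v) i j = v i
  rw [Matrix.updateCol_self]

/-- The action of an invertible matrix as an automorphism. -/
noncomputable def symEquiv (g : GL (Fin n) K) :
    MvPolynomial (Fin n) K ≃ₐ[K] MvPolynomial (Fin n) K :=
  AlgEquiv.ofAlgHom (symAct (g : Matrix (Fin n) (Fin n) K))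
    (symAct ((g⁻¹ : GL (Fin n) K) : Matrix (Fin n) (Fin n) K))
    (by rw [← symAct_mul, ← Units.val_mul, mul_inv_cancel, Units.val_one, symAct_one])
    (by rw [← symAct_mul, ← Units.val_mul, inv_mul_cancel, Units.val_one, symAct_one])

theorem symEquiv_apply (g : GL (Fin n) K) (f : MvPolynomial (Fin n) K) :
    symEquiv g f = symAct (g : Matrix (Fin n) (Fin n) K) f := rfl

theorem lin_prime (v : Fin n → K) (hv : v ≠ 0) : Prime (lin v) := by
  obtain ⟨j, g, h⟩ := exists_gl v hv
  rw [← h, ← symEquiv_apply, MulEquiv.prime_iff (symEquiv g)]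
  exact X_prime

/-- Divisibility by powers of a variable passes to all linear forms. -/
theorem lin_pow_dvd {b : MvPolynomial (Fin n) K} {e a : ℕ}
    (hb : ∀ g : GL (Fin n) K, symAct (g : Matrix (Fin n) (Fin n) K) b =
      C ((g : Matrix (Fin n) (Fin n) K).det ^ e) * b)
    (hX : ∀ j, X j ^ a ∣ b) (v : Fin n → K) (hv : v ≠ 0) : lin v ^ a ∣ b := by
  obtain ⟨j, g, h⟩ := exists_gl v hv
  have h1 := map_dvd (symAct (g : Matrix (Fin n) (Fin n) K)) (hX j)
  rw [map_pow, h, hb g] at h1
  have hdet : (g : Matrix (Fin n) (Fin n) K).det ≠ 0 := by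
    have := (Matrix.GeneralLinearGroup.det g).ne_zero
    simpa using this
  have hu : IsUnit (C ((g : Matrix (Fin n) (Fin n) K).det ^ e) : MvPolynomial (Fin n) K) :=
    (IsUnit.mk0 _ (pow_ne_zero e hdet)).map C
  exact (IsUnit.dvd_mul_left hu).mp h1

/-- Normalized representatives of the lines of `K^n`. -/
abbrev Rep (K : Type*) (n : ℕ) : Type _ := Σ j : Fin n, (Fin j → K)

/-- The vector attached to a representative. -/
def repVec (x : Rep K n) : Fin n → K := fun l =>
  if h : (l : ℕ) < x.1 then x.2 ⟨l, h⟩ else if l = x.1 then 1 else 0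

theorem repVec_self (x : Rep K n) : repVec x x.1 = 1 := by
  rw [repVec, dif_neg (lt_irrefl _), if_pos rfl]

theorem repVec_gt (x : Rep K n) {l : Fin n} (h : x.1 < l) : repVec x l = 0 := by
  have h' : ¬ (l : ℕ) < x.1 := by
    have := Fin.lt_def.mp h
    omega
  rw [repVec, dif_neg h', if_neg (ne_of_gt h)]

theorem repVec_lt (x : Rep K n) {l : Fin n} (h : (l : ℕ) < x.1) : repVec x l = x.2 ⟨l, h⟩ := by
  rw [repVec, dif_pos h]

theorem repVec_ne_zero (x : Rep K n) : repVec x ≠ 0 := by
  intro h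
  have := congrFun h x.1
  rw [repVec_self] at this
  exact one_ne_zero this

theorem rep_eq_of_smul {x y : Rep K n} {c : K} (h : repVec y = c • repVec x) : x = y := by
  have hc : c ≠ 0 := by
    rintro rfl
    rw [zero_smul] at h
    exact repVec_ne_zero y h
  have h1 : x.1 = y.1 := by
    rcases lt_trichotomy x.1 y.1 with h2 | h2 | h2
    · have h3 := congrFun h y.1
      rw [repVec_self, Pi.smul_apply, repVec_gt x h2, smul_zero] at h3
      exact absurd h3 one_ne_zero
    · exact h2
    · have h3 := congrFun h x.1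
      rw [repVec_gt y h2, Pi.smul_apply, repVec_self, smul_eq_mul, mul_one] at h3
      exact absurd h3.symm hc
  have hc1 : c = 1 := by
    have h3 := congrFun h x.1
    rw [Pi.smul_apply, repVec_self, smul_eq_mul, mul_one, h1, repVec_self] at h3
    exact h3.symm
  rw [hc1, one_smul] at h
  obtain ⟨j, w⟩ := x
  obtain ⟨j', w'⟩ := y
  simp only at h1
  subst h1
  congr 1
  funext l
  have h4 := congrFun h ⟨(l : ℕ), l.2.trans j.2⟩
  rw [repVec_lt ⟨j, w⟩ l.2, repVec_lt ⟨j, w'⟩ l.2] at h4
  exact h4.symm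

theorem card_rep : Fintype.card (Rep K n) = ∑ i : Fin n, Fintype.card K ^ (i : ℕ) := by
  classical
  rw [Fintype.card_sigma]
  refine Finset.sum_congr rfl fun i _ => ?_
  rw [Fintype.card_fun, Fintype.card_fin]

theorem lin_totalDegree (v : Fin n → K) (hv : v ≠ 0) : (lin v).totalDegree = 1 :=
  (lin_isHomogeneous v).totalDegree fun h => hv (lin_injective (by rw [h, lin]; simp))

theorem lin_smul (c : K) (v : Fin n → K) : lin (c • v) = C c * lin v := by
  rw [lin, lin, Finset.mul_sum]
  refine Finset.sum_congr rfl fun i _ => ?_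
  rw [Pi.smul_apply, smul_eq_mul, C_mul, mul_assoc]

theorem rep_isRelPrime {x y : Rep K n} (h : x ≠ y) :
    IsRelPrime (lin (repVec x)) (lin (repVec y)) := by
  rw [Irreducible.isRelPrime_iff_not_dvd (lin_prime _ (repVec_ne_zero x)).irreducible]
  rintro ⟨u, hu⟩
  have hx0 := (lin_prime _ (repVec_ne_zero x)).ne_zero
  have hy0 := (lin_prime _ (repVec_ne_zero y)).ne_zero
  have hu0 : u ≠ 0 := by
    rintro rfl
    rw [mul_zero] at hu
    exact hy0 hu
  have h1 := totalDegree_mul_of_isDomain hx0 hu0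
  rw [← hu, lin_totalDegree _ (repVec_ne_zero x), lin_totalDegree _ (repVec_ne_zero y)] at h1
  have h2 : u.totalDegree = 0 := by omega
  rw [totalDegree_eq_zero_iff_eq_C] at h2
  rw [h2, mul_comm, ← lin_smul] at hu
  exact h (rep_eq_of_smul (lin_injective hu))

/-- The product of the normalized linear forms. -/
noncomputable def PP (K : Type*) [Field K] [Fintype K] (n : ℕ) : MvPolynomial (Fin n) K :=
  ∏ x : Rep K n, lin (repVec x)

theorem PP_pow_dvd {b : MvPolynomial (Fin n) K} {a : ℕ}
    (h : ∀ v : Fin n → K, v ≠ 0 → lin v ^ a ∣ b) : PP K n ^ a ∣ b := by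
  classical
  rw [PP, ← Finset.prod_pow]
  apply Finset.prod_dvd_of_isRelPrime
  · intro x _ y _ hxy
    exact (rep_isRelPrime hxy).pow
  · intro x _
    exact h _ (repVec_ne_zero x)

theorem PP_ne_zero : PP K n ≠ 0 :=
  Finset.prod_ne_zero_iff.mpr fun x _ => (lin_prime _ (repVec_ne_zero x)).ne_zero

theorem PP_isHomogeneous :
    (PP K n).IsHomogeneous (∑ i : Fin n, Fintype.card K ^ (i : ℕ)) := by
  have := IsHomogeneous.prod (Finset.univ : Finset (Rep K n)) (fun x => lin (repVec x))
    (fun _ => 1) (fun x _ => lin_isHomogeneous _)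
  rw [Finset.sum_const, smul_eq_mul, mul_one, Finset.card_univ, card_rep] at this
  exact this

theorem LL_eq : ∃ c : K, c ≠ 0 ∧ LL K n = PP K n * C c := by
  have h0 : ∀ v : Fin n → K, v ≠ 0 → lin v ^ 1 ∣ LL K n := by
    intro v hv
    refine lin_pow_dvd (e := 1) ?_ ?_ v hv
    · intro g
      rw [symAct_LL, pow_one, mul_comm]
    · intro j
      rw [pow_one]
      exact X_dvd_LL j
  obtain ⟨u, hu⟩ := PP_pow_dvd h0
  rw [pow_one] at hu
  have hu0 : u ≠ 0 := by
    rintro rfl
    rw [mul_zero] at hu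
    exact LL_ne_zero hu
  have h1 := totalDegree_mul_of_isDomain (PP_ne_zero (K := K) (n := n)) hu0
  rw [← hu, LL_isHomogeneous.totalDegree LL_ne_zero,
    PP_isHomogeneous.totalDegree PP_ne_zero] at h1
  have h2 : u.totalDegree = 0 := by omega
  rw [totalDegree_eq_zero_iff_eq_C] at h2
  refine ⟨coeff 0 u, ?_, ?_⟩
  · intro h3
    rw [h3, C_0] at h2
    exact hu0 h2
  · rw [← h2]
    exact hu

theorem coeff_symAct_diagonal (t : Fin n → K) (f : MvPolynomial (Fin n) K) (α : Fin n →₀ ℕ) :
    coeff α (symAct (Matrix.diagonal t) f) = (∏ i, t i ^ α i) * coeff α f := by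
  have hX : ∀ j, symAct (Matrix.diagonal t) (X j) = C (t j) * X j := by
    intro j
    rw [symAct_X, lin, Finset.sum_eq_single j]
    · rw [Matrix.diagonal_apply_eq]
    · intro i _ hij
      rw [Matrix.diagonal_apply_ne _ hij, C_0, zero_mul]
    · intro h
      exact absurd (Finset.mem_univ _) h
  have hmon : ∀ (β : Fin n →₀ ℕ) (r : K), symAct (Matrix.diagonal t) (monomial β r) =
      monomial β ((∏ i, t i ^ β i) * r) := by
    intro β r
    rw [monomial_eq, map_mul, algHom_C, algebraMap_eq, Finsupp.prod_fintype _ _ (by simp),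
      map_prod]
    simp only [map_pow, hX, mul_pow]
    rw [Finset.prod_mul_distrib, monomial_eq, Finsupp.prod_fintype _ _ (by simp), C_mul,
      map_prod]
    simp only [C_pow]
    ring
  induction f using MvPolynomial.induction_on' with
  | monomial β r =>
    rw [hmon, coeff_monomial, coeff_monomial]
    split_ifs with h
    · rw [h]
    · rw [mul_zero]
  | add p q hp hq => rw [map_add, coeff_add, coeff_add, hp, hq, mul_add]

theorem X_pow_dvd_of_coeff {b : MvPolynomial (Fin n) K} {j : Fin n} {a : ℕ}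
    (h : ∀ α, coeff α b ≠ 0 → a ≤ α j) : X j ^ a ∣ b := by
  rw [X_pow_eq_monomial, as_sum b]
  apply Finset.dvd_sum
  intro α hα
  rw [monomial_dvd_monomial]
  refine ⟨Or.inr ?_, one_dvd _⟩
  rw [mem_support_iff] at hα
  intro i
  rw [Finsupp.single_apply]
  split_ifs with hi
  · rw [← hi]
    exact h α hα
  · exact Nat.zero_le _

theorem le_of_X_pow_dvd {b : MvPolynomial (Fin n) K} {j : Fin n} {a : ℕ}
    (h : X j ^ a ∣ b) {α : Fin n →₀ ℕ} (hα : coeff α b ≠ 0) : a ≤ α j := by
  obtain ⟨c, rfl⟩ := h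
  rw [X_pow_eq_monomial, coeff_monomial_mul'] at hα
  split_ifs at hα with h1
  · have := h1 j
    rwa [Finsupp.single_eq_same] at this
  · exact absurd rfl hα

/-- The torus argument: a lower bound for the order of vanishing improves. -/
theorem X_pow_dvd_semi {b : MvPolynomial (Fin n) K} {e s : ℕ}
    (hb : ∀ g : GL (Fin n) K, symAct (g : Matrix (Fin n) (Fin n) K) b =
      C ((g : Matrix (Fin n) (Fin n) K).det ^ e) * b)
    (hX : ∀ j, X j ^ s ∣ b) (hes : e < s + (Fintype.card K - 1)) (j : Fin n) : X j ^ e ∣ b := by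
  classical
  obtain ⟨ζ, hζ⟩ := IsCyclic.exists_generator (α := Kˣ)
  have hord : orderOf ζ = Fintype.card K - 1 := by
    rw [orderOf_eq_card_of_forall_mem_zpowers hζ, Nat.card_eq_fintype_card, Fintype.card_units]
  apply X_pow_dvd_of_coeff
  intro α hα
  set t : Fin n → K := Function.update 1 j (ζ : K) with ht
  have hdet : (Matrix.diagonal t).det = ζ := by
    rw [Matrix.det_diagonal, Finset.prod_eq_single j]
    · rw [ht, Function.update_self]
    · intro i _ hi
      rw [ht, Function.update_of_ne hi, Pi.one_apply]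
    · intro h
      exact absurd (Finset.mem_univ _) h
  have h1 := hb (Matrix.GeneralLinearGroup.mkOfDetNeZero (Matrix.diagonal t)
    (by rw [hdet]; exact ζ.ne_zero))
  have h2 : symAct (Matrix.diagonal t) b = C ((ζ : K) ^ e) * b := by
    rw [← hdet]
    exact h1
  have h3 := congrArg (coeff α) h2
  rw [coeff_symAct_diagonal, coeff_C_mul, Finset.prod_eq_single j] at h3
  · rw [ht, Function.update_self] at h3
    have h4 : ζ ^ α j = ζ ^ e := by
      apply Units.ext
      rw [Units.val_pow_eq_pow_val, Units.val_pow_eq_pow_val]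
      exact mul_right_cancel₀ hα h3
    rw [pow_eq_pow_iff_modEq, hord] at h4
    have h5 := le_of_X_pow_dvd (hX j) hα
    by_contra hlt
    rw [not_le] at hlt
    have h6 := (Nat.modEq_iff_dvd' hlt.le).mp h4
    have h7 := Nat.le_of_dvd (by omega) h6
    omega
  · intro i _ hi
    rw [ht, Function.update_of_ne hi, Pi.one_apply, one_pow]
  · intro h
    exact absurd (Finset.mem_univ _) h

/-- A `det^e`-semi-invariant with enough vanishing is `L^e` times an invariant. -/
theorem semi_div {b : MvPolynomial (Fin n) K} {e s : ℕ}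
    (hb : ∀ g : GL (Fin n) K, symAct (g : Matrix (Fin n) (Fin n) K) b =
      C ((g : Matrix (Fin n) (Fin n) K).det ^ e) * b)
    (hX : ∀ j, X j ^ s ∣ b) (hes : e < s + (Fintype.card K - 1)) :
    ∃ f ∈ invariants K n, b = LL K n ^ e * f := by
  have h1 : PP K n ^ e ∣ b := PP_pow_dvd fun v hv => lin_pow_dvd hb (X_pow_dvd_semi hb hX hes) v hv
  obtain ⟨c, hc, hL⟩ := LL_eq (K := K) (n := n)
  have h2 : LL K n ^ e ∣ b := by
    rw [hL, mul_pow]
    have hu : IsUnit (C c ^ e : MvPolynomial (Fin n) K) := ((IsUnit.mk0 _ hc).map C).pow e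
    exact (IsUnit.mul_right_dvd hu).mpr h1
  obtain ⟨f, hf⟩ := h2
  refine ⟨f, ?_, hf⟩
  intro g
  have h3 := hb g
  have hdet : (g : Matrix (Fin n) (Fin n) K).det ≠ 0 := by
    have := (Matrix.GeneralLinearGroup.det g).ne_zero
    simpa using this
  rw [hf, map_mul, map_pow, symAct_LL, mul_pow, ← C_pow] at h3
  have h4 : LL K n ^ e * C ((g : Matrix (Fin n) (Fin n) K).det ^ e) ≠ 0 :=
    mul_ne_zero (pow_ne_zero _ LL_ne_zero) (by
      rw [Ne, map_eq_zero_iff _ (C_injective _ _)]
      exact pow_ne_zero _ hdet)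
  apply mul_left_cancel₀ h4
  rw [h3]
  ring

end Pool.Agent.Socle
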