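import Pool.Agent.Socle.SchurBasis
import Pool.Agent.Socle.SemiInv

set_option autoImplicit false
set_option linter.unusedSectionVars false

namespace Pool.Agent.Socle

open MvPolynomial

section Tmul

variable {n : ℕ} {μ : YoungDiagram} {R : Type*} [CommRing R]

/-- Contraction of a function on fillings with a matrix. -/
def tmul (f : Fill n μ → R) (P : Matrix (Fin n) (Fin n) R) : Fill n μ → R :=
  fun I => ∑ J, f J * ∏ c, P (J c) (I c)

theorem sum_fill_comp (σ : Equiv.Perm μ.cells) {A : Type*} [AddCommMonoid A]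
    (h : Fill n μ → A) : ∑ J, h (J ∘ σ) = ∑ J, h J :=
  Equiv.sum_comp (Equiv.arrowCongr σ.symm (Equiv.refl (Fin n))) h

theorem tmul_comp (f : Fill n μ → R) (P : Matrix (Fin n) (Fin n) R) (σ : Equiv.Perm μ.cells)
    (T : Fill n μ) : tmul f P (T ∘ σ) = tmul (fun J => f (J ∘ σ)) P T := by
  rw [tmul, tmul, ← sum_fill_comp σ]
  refine Finset.sum_congr rfl fun J _ => ?_
  congr 1
  exact Equiv.prod_comp σ fun c => P (J c) (T c)

theorem tmul_isRel {f : Fill n μ → R} (hf : IsRel f) (P : Matrix (Fin n) (Fin n) R) :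
    IsRel (tmul f P) := by
  refine ⟨fun κ hκ T => ?_, fun Z hZ T => ?_⟩
  · rw [tmul_comp, tmul, tmul, Finset.smul_sum]
    refine Finset.sum_congr rfl fun J _ => ?_
    rw [hf.1 κ hκ J, smul_mul_assoc]
  · have h1 : ∀ σ : Equiv.Perm μ.cells, (Equiv.Perm.sign σ : ℤ) • tmul f P (T ∘ σ) =
        ∑ J, ((Equiv.Perm.sign σ : ℤ) • f (J ∘ σ)) * ∏ c, P (J c) (T c) := by
      intro σ
      rw [tmul_comp, tmul, Finset.smul_sum]
      refine Finset.sum_congr rfl fun J _ => ?_
      rw [smul_mul_assoc]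
    simp only [h1]
    rw [Finset.sum_comm]
    apply Finset.sum_eq_zero
    intro J _
    rw [← Finset.sum_mul, hf.2 Z hZ J, zero_mul]

theorem tmul_mul (f : Fill n μ → R) (P Q : Matrix (Fin n) (Fin n) R) :
    tmul f (P * Q) = tmul (tmul f P) Q := by
  funext I
  simp only [tmul, Matrix.mul_apply]
  simp only [Finset.prod_univ_sum, Fintype.piFinset_univ, Finset.mul_sum, Finset.sum_mul]
  rw [Finset.sum_comm]
  refine Finset.sum_congr rfl fun H _ => Finset.sum_congr rfl fun J _ => ?_
  rw [Finset.prod_mul_distrib]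
  ring

theorem tmul_one (f : Fill n μ → R) : tmul f 1 = f := by
  classical
  funext I
  rw [tmul, Finset.sum_eq_single I]
  · simp
  · intro J _ hJ
    obtain ⟨c, hc⟩ := Function.ne_iff.mp hJ
    have h0 : ∏ c, (1 : Matrix (Fin n) (Fin n) R) (J c) (I c) = 0 :=
      Finset.prod_eq_zero (Finset.mem_univ c) (Matrix.one_apply_ne hc)
    rw [h0, mul_zero]
  · intro h
    exact absurd (Finset.mem_univ _) h

theorem tmul_smul (f : Fill n μ → R) (x : R) (P : Matrix (Fin n) (Fin n) R) (I : Fill n μ) :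
    tmul f (x • P) I = x ^ μ.card * tmul f P I := by
  rw [tmul, tmul, Finset.mul_sum]
  refine Finset.sum_congr rfl fun J _ => ?_
  simp only [Matrix.smul_apply, smul_eq_mul]
  rw [Finset.prod_mul_distrib, Finset.prod_const, Finset.card_univ, Fintype.card_coe]
  ring

theorem tmul_const_mul (f : Fill n μ → R) (x : R) (P : Matrix (Fin n) (Fin n) R) :
    tmul (fun J => x * f J) P = fun I => x * tmul f P I := by
  funext I
  rw [tmul, tmul, Finset.mul_sum]
  refine Finset.sum_congr rfl fun J _ => ?_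
  ring

theorem tmul_map {R' : Type*} [CommRing R'] (φ : R →+* R') (f : Fill n μ → R)
    (P : Matrix (Fin n) (Fin n) R) (I : Fill n μ) :
    φ (tmul f P I) = tmul (fun J => φ (f J)) (P.map φ) I := by
  rw [tmul, tmul, map_sum]
  refine Finset.sum_congr rfl fun J _ => ?_
  rw [map_mul, map_prod]
  rfl

end Tmul

section Equivariance

variable {K : Type*} [Field K] {n : ℕ} {μ : YoungDiagram}

/-- The representation `L(μ) ⊗ Det^k`. -/
noncomputable abbrev simpleRep (K : Type*) [Field K] (n : ℕ) (μ : YoungDiagram) (k : ℕ) :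
    Representation K (GL (Fin n) K) (schurFunctor (stdRep K n) μ).toSubmodule :=
  twist (detPow K n k) (schurFunctor (stdRep K n) μ).toRepresentation

theorem tensRep_pureT (g : GL (Fin n) K) (v : μ.cells → Fin n → K) :
    tensRep (stdRep K n) μ g (pureT v) =
      pureT fun c => (g : Matrix (Fin n) (Fin n) K).mulVec (v c) :=
  PiTensorProduct.map_tprod (fun _ : μ.cells => stdRep K n g) v

theorem tensRep_tb (g : GL (Fin n) K) (T : Fill n μ) :
    tensRep (stdRep K n) μ g (tb K n μ T) =
      ∑ J, (∏ c, (g : Matrix (Fin n) (Fin n) K) (J c) (T c)) • tb K n μ J := by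
  rw [tb_apply, tensRep_pureT]
  refine ((tb K n μ).sum_repr _).symm.trans ?_
  refine Finset.sum_congr rfl fun J _ => ?_
  rw [tb_repr_pureT]
  congr 1
  refine Finset.prod_congr rfl fun c _ => ?_
  rw [Matrix.mulVec_single_one]
  rfl

theorem simpleRep_coe (k : ℕ) (g : GL (Fin n) K) (v : (schurFunctor (stdRep K n) μ).toSubmodule) :
    ((simpleRep K n μ k g v : (schurFunctor (stdRep K n) μ).toSubmodule) :
      TensPow K (Fin n → K) μ) = ((g : Matrix (Fin n) (Fin n) K).det ^ k) •
        tensRep (stdRep K n) μ g (v : TensPow K (Fin n → K) μ) := rfl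

theorem simpleRep_yR (k : ℕ) (g : GL (Fin n) K) (x : TensPow K (Fin n → K) μ) :
    simpleRep K n μ k g (yR K n μ x) =
      ((g : Matrix (Fin n) (Fin n) K).det ^ k) • yR K n μ (tensRep (stdRep K n) μ g x) := by
  apply Subtype.ext
  rw [simpleRep_coe, Submodule.coe_smul, yR_coe, yR_coe, youngSymmetrizer_comm]

theorem simpleRep_tb (k : ℕ) (g : GL (Fin n) K) (T : Fill n μ) :
    simpleRep K n μ k g (yR K n μ (tb K n μ T)) =
      ((g : Matrix (Fin n) (Fin n) K).det ^ k) •
        ∑ J, (∏ c, (g : Matrix (Fin n) (Fin n) K) (J c) (T c)) • yR K n μ (tb K n μ J) := by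
  rw [simpleRep_yR, tensRep_tb, map_sum]
  simp only [map_smul]

theorem symRep_coe (m : ℕ) (g : GL (Fin n) K) (f : homogeneousSubmodule (Fin n) K m) :
    ((symRep K n m g f : homogeneousSubmodule (Fin n) K m) : MvPolynomial (Fin n) K) =
      symAct (g : Matrix (Fin n) (Fin n) K) (f : MvPolynomial (Fin n) K) := rfl

/-- The equivariance relation for functions on fillings. -/
def IsEquiv (K : Type*) [Field K] (n : ℕ) (μ : YoungDiagram) (k : ℕ)
    (f : Fill n μ → MvPolynomial (Fin n) K) : Prop :=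
  ∀ (g : GL (Fin n) K) (T : Fill n μ), symAct (g : Matrix (Fin n) (Fin n) K) (f T) =
    C ((g : Matrix (Fin n) (Fin n) K).det ^ k) *
      tmul f ((g : Matrix (Fin n) (Fin n) K).map C) T

theorem linear_sum_eq (k m : ℕ) (g : GL (Fin n) K)
    (Φ : (schurFunctor (stdRep K n) μ).toSubmodule →ₗ[K] homogeneousSubmodule (Fin n) K m)
    (T : Fill n μ) :
    ((Φ (simpleRep K n μ k g (yR K n μ (tb K n μ T))) : homogeneousSubmodule (Fin n) K m) :
      MvPolynomial (Fin n) K) = C ((g : Matrix (Fin n) (Fin n) K).det ^ k) *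
      tmul (fun J => (Φ (yR K n μ (tb K n μ J)) : MvPolynomial (Fin n) K))
        ((g : Matrix (Fin n) (Fin n) K).map C) T := by
  rw [simpleRep_tb, map_smul, map_sum, Submodule.coe_smul, Submodule.coe_sum, smul_eq_C_mul,
    tmul]
  congr 1
  refine Finset.sum_congr rfl fun J _ => ?_
  rw [map_smul, Submodule.coe_smul, smul_eq_C_mul, map_prod, mul_comm]
  rfl

theorem isEquiv_of_intertwining (k m : ℕ)
    (Φ : (simpleRep K n μ k).IntertwiningMap (symRep K n m)) :
    IsEquiv K n μ k
      (fun J => (Φ.toLinearMap (yR K n μ (tb K n μ J)) : MvPolynomial (Fin n) K)) := by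
  intro g T
  rw [← linear_sum_eq, ← symRep_coe]
  congr 1
  exact (Representation.IntertwiningMap.isIntertwining _ _ Φ g _).symm

theorem intertwining_of_isEquiv (k m : ℕ)
    (Φ : (schurFunctor (stdRep K n) μ).toSubmodule →ₗ[K] homogeneousSubmodule (Fin n) K m)
    (h : IsEquiv K n μ k
      (fun J => (Φ (yR K n μ (tb K n μ J)) : MvPolynomial (Fin n) K)))
    (g : GL (Fin n) K) (v : (schurFunctor (stdRep K n) μ).toSubmodule) :
    Φ (simpleRep K n μ k g v) = symRep K n m g (Φ v) := by
  obtain ⟨x, rfl⟩ := yR_surjective v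
  have h1 : Φ ∘ₗ simpleRep K n μ k g ∘ₗ yR K n μ = symRep K n m g ∘ₗ Φ ∘ₗ yR K n μ := by
    apply (tb K n μ).ext
    intro T
    apply Subtype.ext
    rw [LinearMap.comp_apply, LinearMap.comp_apply, LinearMap.comp_apply, LinearMap.comp_apply,
      symRep_coe, h g T, linear_sum_eq]
  exact LinearMap.congr_fun h1 x

end Equivariance

end Pool.Agent.Socle
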