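import Pool.Agent.Socle.Span

set_option autoImplicit false

namespace Pool.Agent.Socle

open MvPolynomial

variable {K : Type*} [Field K] {n : ℕ}

/-- The homogeneous component of degree `m - w` (zero if `m < w`). -/
noncomputable def shiftComp (K : Type*) [Field K] (n m w : ℕ) :
    MvPolynomial (Fin n) K →ₗ[K] MvPolynomial (Fin n) K :=
  if w ≤ m then homogeneousComponent (m - w) else 0

theorem shiftComp_mul {m w : ℕ} (c b : MvPolynomial (Fin n) K) (hb : b.IsHomogeneous w) :
    homogeneousComponent m (c * b) = shiftComp K n m w c * b := by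
  have h1 : ∀ j, homogeneousComponent m (homogeneousComponent j c * b) =
      if m = j + w then homogeneousComponent j c * b else 0 := by
    intro j
    apply homogeneousComponent_of_mem
    exact (homogeneousComponent_isHomogeneous j c).mul hb
  conv_lhs => rw [← sum_homogeneousComponent c, Finset.sum_mul, map_sum]
  simp only [h1]
  rw [shiftComp]
  split_ifs with hw
  · by_cases hm : m - w < c.totalDegree + 1
    · rw [Finset.sum_eq_single (m - w)]
      · rw [if_pos (by omega)]
      · intro j _ hj
        rw [if_neg (by omega)]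
      · intro h
        exact absurd (Finset.mem_range.mpr hm) h
    · rw [homogeneousComponent_eq_zero _ _ (by omega), zero_mul]
      apply Finset.sum_eq_zero
      intro j hj
      rw [Finset.mem_range] at hj
      rw [if_neg (by omega)]
  · rw [LinearMap.zero_apply, zero_mul]
    apply Finset.sum_eq_zero
    intro j _
    rw [if_neg (by omega)]

theorem shiftComp_idem (m w : ℕ) (f : MvPolynomial (Fin n) K) :
    shiftComp K n m w (shiftComp K n m w f) = shiftComp K n m w f := by
  rw [shiftComp]
  split_ifs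
  · exact homogeneousComponent_eq_self (homogeneousComponent_isHomogeneous _ _)
  · rfl

theorem homogeneousComponent_symAct (g : Matrix (Fin n) (Fin n) K) (m : ℕ)
    (f : MvPolynomial (Fin n) K) :
    homogeneousComponent m (symAct g f) = symAct g (homogeneousComponent m f) := by
  have h1 : ∀ j, homogeneousComponent m (symAct g (homogeneousComponent j f)) =
      if m = j then symAct g (homogeneousComponent j f) else 0 := by
    intro j
    apply homogeneousComponent_of_mem
    exact symAct_isHomogeneous g (homogeneousComponent_isHomogeneous j f)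
  conv_lhs => rw [← sum_homogeneousComponent f, map_sum, map_sum]
  simp only [h1]
  by_cases hm : m < f.totalDegree + 1
  · rw [Finset.sum_eq_single m]
    · rw [if_pos rfl]
    · intro j _ hj
      rw [if_neg (Ne.symm hj)]
    · intro h
      exact absurd (Finset.mem_range.mpr hm) h
  · rw [homogeneousComponent_eq_zero _ _ (by omega), map_zero]
    apply Finset.sum_eq_zero
    intro j hj
    rw [Finset.mem_range] at hj
    rw [if_neg (by omega)]

theorem homogeneousComponent_mem_invariants (m : ℕ) {f : MvPolynomial (Fin n) K}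
    (hf : f ∈ invariants K n) : homogeneousComponent m f ∈ invariants K n := by
  intro g
  rw [← homogeneousComponent_symAct, hf g]

theorem shiftComp_mem_invariants (m w : ℕ) {f : MvPolynomial (Fin n) K}
    (hf : f ∈ invariants K n) : shiftComp K n m w f ∈ invariants K n := by
  rw [shiftComp]
  split_ifs
  · exact homogeneousComponent_mem_invariants _ hf
  · exact Subalgebra.zero_mem _

/-- Invariants, homogeneous of degree `m - w` (zero if `m < w`). -/
noncomputable def DD (K : Type*) [Field K] (n m w : ℕ) : Submodule K (MvPolynomial (Fin n) K) where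
  carrier := {f | f ∈ invariants K n ∧ shiftComp K n m w f = f}
  add_mem' := by
    rintro a b ⟨ha, ha'⟩ ⟨hb, hb'⟩
    exact ⟨Subalgebra.add_mem _ ha hb, by rw [map_add, ha', hb']⟩
  zero_mem' := ⟨Subalgebra.zero_mem _, map_zero _⟩
  smul_mem' := by
    rintro r a ⟨ha, ha'⟩
    exact ⟨Subalgebra.smul_mem _ ha r, by rw [map_smul, ha']⟩

theorem mem_DD {m w : ℕ} {f : MvPolynomial (Fin n) K} :
    f ∈ DD K n m w ↔ f ∈ invariants K n ∧ shiftComp K n m w f = f := Iff.rfl

theorem shiftComp_mem_DD (m w : ℕ) {f : MvPolynomial (Fin n) K} (hf : f ∈ invariants K n) :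
    shiftComp K n m w f ∈ DD K n m w :=
  ⟨shiftComp_mem_invariants m w hf, shiftComp_idem m w f⟩

theorem DD_mul_homogeneous {m w : ℕ} {f b : MvPolynomial (Fin n) K} (hf : f ∈ DD K n m w)
    (hb : b.IsHomogeneous w) : (f * b).IsHomogeneous m := by
  have := shiftComp_mul (m := m) f b hb
  rw [hf.2] at this
  rw [← this]
  exact homogeneousComponent_isHomogeneous _ _

theorem DD_eq_of_le {m w : ℕ} (h : w ≤ m) : DD K n m w = DD K n (m - w) 0 := by
  ext f
  rw [mem_DD, mem_DD, shiftComp, shiftComp, if_pos h, if_pos (Nat.zero_le _), Nat.sub_zero]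

theorem DD_eq_bot {m w : ℕ} (h : m < w) : DD K n m w = ⊥ := by
  rw [eq_bot_iff]
  rintro f ⟨-, hf⟩
  rw [shiftComp, if_neg (not_le.mpr h), LinearMap.zero_apply] at hf
  exact hf.symm

theorem DD_le (m w : ℕ) : DD K n m w ≤ homogeneousSubmodule (Fin n) K (m - w) := by
  intro f hf
  rw [mem_homogeneousSubmodule]
  by_cases h : w ≤ m
  · have := hf.2
    rw [shiftComp, if_pos h] at this
    rw [← this]
    exact homogeneousComponent_isHomogeneous _ _
  · rw [DD_eq_bot (not_le.mp h), Submodule.mem_bot] at hf
    rw [hf]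
    exact isHomogeneous_zero _ _ _

instance finite_homog (m : ℕ) : Module.Finite K (homogeneousSubmodule (Fin n) K m) :=
  Module.Finite.iff_fg.mpr (homogeneousSubmodule_fg (Fin n) K m)

instance finite_DD (m w : ℕ) : Module.Finite K (DD K n m w) :=
  Submodule.finiteDimensional_of_le (DD_le m w)

/-- Hilbert series of the invariants. -/
noncomputable def HD (K : Type*) [Field K] (n : ℕ) : PowerSeries ℤ :=
  PowerSeries.mk fun j => (Module.finrank K (DD K n j 0) : ℤ)

theorem finrank_DD (m w : ℕ) : (Module.finrank K (DD K n m w) : ℤ) =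
    PowerSeries.coeff m (PowerSeries.X ^ w * HD K n) := by
  rw [PowerSeries.coeff_X_pow_mul']
  split_ifs with h
  · rw [HD, PowerSeries.coeff_mk, DD_eq_of_le h]
  · rw [DD_eq_bot (not_le.mp h), finrank_bot, Nat.cast_zero]

theorem finrank_homog (m : ℕ) : (Module.finrank K (homogeneousSubmodule (Fin n) K m) : ℤ) =
    PowerSeries.coeff m ((PowerSeries.mk fun _ => (1 : ℤ)) ^ n) := by
  classical
  have h1 : ((PowerSeries.mk fun _ => (1 : ℤ)) ^ n) =
      ∏ _i : Fin n, (PowerSeries.mk fun _ => (1 : ℤ)) := by simp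
  rw [h1, PowerSeries.coeff_prod]
  simp only [PowerSeries.coeff_mk, Finset.prod_const_one, Finset.sum_const, mul_one,
    nsmul_eq_mul]
  norm_cast
  have h2 : homogeneousSubmodule (Fin n) K m =
      restrictSupport K {d : Fin n →₀ ℕ | d.degree = m} :=
    homogeneousSubmodule_eq_finsupp_supported (Fin n) K m
  rw [h2, Module.finrank_eq_nat_card_basis (basisRestrictSupport K {d : Fin n →₀ ℕ | d.degree = m})]
  have hset : {d : Fin n →₀ ℕ | d.degree = m} =
      ((Finset.univ : Finset (Fin n)).finsuppAntidiag m : Set (Fin n →₀ ℕ)) := by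
    ext d
    rw [Finset.mem_coe, Finset.mem_finsuppAntidiag, Set.mem_ofPred_eq, Finsupp.degree_eq_sum]
    simp
  rw [hset, Nat.card_coe_set_eq, Set.ncard_coe_finset]

variable [Fintype K]

theorem boxMon_homogeneous (a : Box K n) :
    (boxMon K n a).IsHomogeneous (∑ j, (a j : ℕ)) := by
  apply IsHomogeneous.prod
  intro j _
  exact isHomogeneous_X_pow j _

/-- The graded freeness map. -/
noncomputable def boxMap (K : Type*) [Field K] [Fintype K] (n m : ℕ) :
    (∀ a : Box K n, DD K n m (∑ j, (a j : ℕ))) →ₗ[K] homogeneousSubmodule (Fin n) K m where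
  toFun c := ⟨∑ a, (c a : MvPolynomial (Fin n) K) * boxMon K n a, by
    refine Submodule.sum_mem _ fun a _ => ?_
    exact DD_mul_homogeneous (c a).2 (boxMon_homogeneous a)⟩
  map_add' c d := by
    apply Subtype.ext
    simp [add_mul, Finset.sum_add_distrib]
  map_smul' r c := by
    apply Subtype.ext
    simp [Finset.smul_sum]

theorem boxMap_bijective (m : ℕ) : Function.Bijective (boxMap K n m) := by
  constructor
  · rw [injective_iff_map_eq_zero]
    intro c hc
    have h0 : ∑ a, (c a : MvPolynomial (Fin n) K) * boxMon K n a = 0 :=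
      congrArg Subtype.val hc
    have := box_indep (fun a => (c a : MvPolynomial (Fin n) K)) (fun a => (c a).2.1) h0
    funext a
    apply Subtype.ext
    exact congrFun this a
  · rintro ⟨f, hf⟩
    obtain ⟨c, hc, hfc⟩ := box_span f
    refine ⟨fun a => ⟨shiftComp K n m (∑ j, (a j : ℕ)) (c a), shiftComp_mem_DD _ _ (hc a)⟩, ?_⟩
    apply Subtype.ext
    change ∑ a, shiftComp K n m (∑ j, (a j : ℕ)) (c a) * boxMon K n a = f
    have h1 : homogeneousComponent m f = f := homogeneousComponent_eq_self hf
    rw [← h1, hfc, map_sum]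
    refine Finset.sum_congr rfl fun a _ => ?_
    rw [shiftComp_mul _ _ (boxMon_homogeneous a)]

theorem finrank_homog_box (m : ℕ) :
    (Module.finrank K (homogeneousSubmodule (Fin n) K m) : ℤ) =
      PowerSeries.coeff m ((∑ a : Box K n, PowerSeries.X ^ (∑ j, (a j : ℕ))) * HD K n) := by
  rw [← (LinearEquiv.ofBijective _ (boxMap_bijective (K := K) (n := n) m)).finrank_eq,
    Module.finrank_pi_fintype, Finset.sum_mul, map_sum]
  push_cast
  refine Finset.sum_congr rfl fun a _ => ?_
  exact finrank_DD _ _

omit [Field K] in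
theorem box_sum : (∑ a : Box K n, (PowerSeries.X : PowerSeries ℤ) ^ (∑ j, (a j : ℕ))) *
    (1 - PowerSeries.X) ^ n =
      ∏ i : Fin n, (1 - PowerSeries.X ^ (Fintype.card K ^ n - Fintype.card K ^ (i : ℕ))) := by
  have h1 : (∑ a : Box K n, (PowerSeries.X : PowerSeries ℤ) ^ (∑ j, (a j : ℕ))) =
      ∏ j : Fin n, ∑ s : Fin (Fintype.card K ^ n - Fintype.card K ^ (j : ℕ)),
        (PowerSeries.X : PowerSeries ℤ) ^ (s : ℕ) := by
    rw [Fintype.prod_sum]
    refine Finset.sum_congr rfl fun a _ => ?_
    rw [Finset.prod_pow_eq_pow_sum]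
  have h2 : (1 - PowerSeries.X : PowerSeries ℤ) ^ n = ∏ _j : Fin n, (1 - PowerSeries.X) := by
    simp
  rw [h1, h2, ← Finset.prod_mul_distrib]
  refine Finset.prod_congr rfl fun j _ => ?_
  rw [Fin.sum_univ_eq_sum_range (fun s => (PowerSeries.X : PowerSeries ℤ) ^ s)]
  exact geom_sum_mul_neg _ _

/-- The Hilbert series of the Dickson invariants. -/
theorem hilbert_invariants : HD K n *
    ∏ i : Fin n, (1 - PowerSeries.X ^ (Fintype.card K ^ n - Fintype.card K ^ (i : ℕ))) = 1 := by
  have h1 : (PowerSeries.mk fun _ => (1 : ℤ)) ^ n =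
      (∑ a : Box K n, PowerSeries.X ^ (∑ j, (a j : ℕ))) * HD K n := by
    ext m
    rw [← finrank_homog (K := K), finrank_homog_box]
  have h2 : (PowerSeries.mk fun _ => (1 : ℤ)) * (1 - PowerSeries.X) = 1 :=
    PowerSeries.mk_one_mul_one_sub_eq_one ℤ
  rw [← box_sum, ← mul_assoc, mul_comm (HD K n), ← h1, ← mul_pow, h2, one_pow]

end Pool.Agent.Socle
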