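import Pool.Agent.Socle.Tableaux

set_option autoImplicit false

namespace Pool.Agent.Socle

open scoped TensorProduct

variable {n : ℕ} {μ : YoungDiagram}

theorem IsRel.map {A B : Type*} [AddCommGroup A] [AddCommGroup B] {f : Fill n μ → A}
    (hf : IsRel f) (φ : A →+ B) : IsRel (fun T => φ (f T)) := by
  refine ⟨fun κ hκ T => ?_, fun Z hZ T => ?_⟩
  · change φ (f (T ∘ κ)) = (Equiv.Perm.sign κ : ℤ) • φ (f T)
    rw [hf.1 κ hκ T, map_zsmul]
  · have := congrArg φ (hf.2 Z hZ T)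
    rw [map_zero, map_sum] at this
    rw [← this]
    refine Finset.sum_congr rfl fun σ _ => ?_
    rw [map_zsmul]

theorem IsRel.sub {A : Type*} [AddCommGroup A] {f g : Fill n μ → A}
    (hf : IsRel f) (hg : IsRel g) : IsRel (fun T => f T - g T) := by
  refine ⟨fun κ hκ T => ?_, fun Z hZ T => ?_⟩
  · change f (T ∘ κ) - g (T ∘ κ) = _
    rw [hf.1 κ hκ T, hg.1 κ hκ T, smul_sub]
  · have h1 := hf.2 Z hZ T
    have h2 := hg.2 Z hZ T
    simp only [smul_sub, Finset.sum_sub_distrib]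
    rw [h1, h2, sub_zero]

theorem row_unique {T : Fill n μ} {ρ : Equiv.Perm μ.cells} (hρ : ρ ∈ rowPerms μ)
    (hT : ∀ c c' : μ.cells, c.1.1 = c'.1.1 → c.1.2 ≤ c'.1.2 → T c ≤ T c')
    (hT' : ∀ c c' : μ.cells, c.1.1 = c'.1.1 → c.1.2 ≤ c'.1.2 → (T ∘ ρ) c ≤ (T ∘ ρ) c') :
    T ∘ ρ = T := by
  classical
  have key : ∀ (T : Fill n μ) (ρ : Equiv.Perm μ.cells), ρ ∈ rowPerms μ →
      (∀ c c' : μ.cells, c.1.1 = c'.1.1 → c.1.2 ≤ c'.1.2 → T c ≤ T c') →
      (∀ c c' : μ.cells, c.1.1 = c'.1.1 → c.1.2 ≤ c'.1.2 → (T ∘ ρ) c ≤ (T ∘ ρ) c') →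
      ∀ c, (T ∘ ρ) c ≤ T c := by
    intro T ρ hρ hT hT' c
    by_contra hcon
    rw [not_le] at hcon
    set P := Finset.univ.filter fun x : μ.cells => x.1.1 = c.1.1 ∧ x.1.2 ≤ c.1.2 with hP
    set P' := Finset.univ.filter fun x : μ.cells => x.1.1 = c.1.1 ∧ x.1.2 < c.1.2 with hP'
    have h1 : (P.image ⇑(ρ⁻¹)) ⊆ P' := by
      intro y hy
      obtain ⟨x, hx, rfl⟩ := Finset.mem_image.mp hy
      rw [hP, Finset.mem_filter] at hx
      rw [hP', Finset.mem_filter]
      have hrow : (ρ⁻¹ x).1.1 = c.1.1 := by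
        rw [mem_rowPerms.mp (inv_mem_rowPerms hρ) x, hx.2.1]
      refine ⟨Finset.mem_univ _, hrow, ?_⟩
      by_contra hge
      rw [not_lt] at hge
      have h2 := hT' c (ρ⁻¹ x) hrow.symm hge
      have h3 := hT x c hx.2.1 hx.2.2
      have h4 : (T ∘ ρ) (ρ⁻¹ x) = T x := by
        rw [Function.comp_apply, perm_apply_inv]
      rw [h4] at h2
      exact absurd (lt_of_lt_of_le hcon (h2.trans h3)) (lt_irrefl _)
    have h5 := Finset.card_le_card h1
    rw [Finset.card_image_of_injective _ (ρ⁻¹).injective] at h5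
    have h6 : P' ⊂ P := by
      rw [Finset.ssubset_iff_of_subset]
      · refine ⟨c, ?_, ?_⟩
        · rw [hP, Finset.mem_filter]
          exact ⟨Finset.mem_univ _, rfl, le_rfl⟩
        · rw [hP', Finset.mem_filter]
          rintro ⟨-, -, h⟩
          exact lt_irrefl _ h
      · intro x hx
        rw [hP', Finset.mem_filter] at hx
        rw [hP, Finset.mem_filter]
        exact ⟨hx.1, hx.2.1, hx.2.2.le⟩
    exact absurd (Finset.card_lt_card h6) (not_lt.mpr h5)
  funext c
  apply le_antisymm (key T ρ hρ hT hT' c)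
  have h7 : (T ∘ ρ) ∘ ⇑(ρ⁻¹) = T := by
    funext x
    rw [Function.comp_apply, Function.comp_apply, perm_apply_inv]
  have := key (T ∘ ρ) ρ⁻¹ (inv_mem_rowPerms hρ) hT' (by rw [h7]; exact hT) c
  rwa [h7] at this

variable {K : Type*} [Field K]

/-- Pure tensors. -/
noncomputable def pureT (v : μ.cells → Fin n → K) : TensPow K (Fin n → K) μ :=
  PiTensorProduct.tprod K v

theorem permAct_pureT (σ : Equiv.Perm μ.cells) (v : μ.cells → Fin n → K) :
    permAct K (Fin n → K) σ (pureT v) = pureT (fun c => v (σ.symm c)) :=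
  PiTensorProduct.reindex_tprod σ v

/-- The standard basis of the tensor power, indexed by fillings. -/
noncomputable def tb (K : Type*) [Field K] (n : ℕ) (μ : YoungDiagram) :
    Module.Basis (Fill n μ) K (TensPow K (Fin n → K) μ) :=
  Basis.piTensorProduct fun _ => Pi.basisFun K (Fin n)

theorem tb_apply (T : Fill n μ) : tb K n μ T = pureT (fun c => Pi.single (T c) (1 : K)) := by
  refine (Basis.piTensorProduct_apply (fun _ : μ.cells => Pi.basisFun K (Fin n)) T).trans ?_
  simp only [Pi.basisFun_apply]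
  rfl

theorem tb_repr_pureT (v : μ.cells → Fin n → K) (J : Fill n μ) :
    (tb K n μ).repr (pureT v) J = ∏ c, v c (J c) := by
  refine (Basis.piTensorProduct_repr_tprod_apply (fun _ : μ.cells => Pi.basisFun K (Fin n))
    v J).trans ?_
  simp only [Pi.basisFun_repr]

theorem permAct_tb (σ : Equiv.Perm μ.cells) (T : Fill n μ) :
    permAct K (Fin n → K) σ (tb K n μ T) = tb K n μ (T ∘ ⇑σ⁻¹) := by
  rw [tb_apply, tb_apply, permAct_pureT]
  rfl

theorem permAct_mul (σ τ : Equiv.Perm μ.cells) :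
    permAct K (Fin n → K) (σ * τ) = permAct K (Fin n → K) σ ∘ₗ permAct K (Fin n → K) τ := by
  apply (tb K n μ).ext
  intro T
  rw [LinearMap.comp_apply, permAct_tb, permAct_tb, permAct_tb, mul_inv_rev]
  rfl

theorem sum_comp' {ι A B C : Type*} [AddCommMonoid A] [AddCommMonoid B] [AddCommMonoid C]
    [Module K A] [Module K B] [Module K C] (s : Finset ι) (f : ι → B →ₗ[K] C) (g : A →ₗ[K] B) :
    (∑ i ∈ s, f i) ∘ₗ g = ∑ i ∈ s, f i ∘ₗ g := by
  ext x
  simp only [LinearMap.comp_apply, LinearMap.sum_apply]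

theorem comp_sum' {ι A B C : Type*} [AddCommMonoid A] [AddCommMonoid B] [AddCommMonoid C]
    [Module K A] [Module K B] [Module K C] (s : Finset ι) (f : B →ₗ[K] C) (g : ι → A →ₗ[K] B) :
    f ∘ₗ (∑ i ∈ s, g i) = ∑ i ∈ s, f ∘ₗ g i := by
  ext x
  simp only [LinearMap.comp_apply, LinearMap.sum_apply, map_sum]

/-- Row symmetrizer. -/
noncomputable def rowSym (K : Type*) [Field K] (n : ℕ) (μ : YoungDiagram) :
    TensPow K (Fin n → K) μ →ₗ[K] TensPow K (Fin n → K) μ := ∑ ρ ∈ rowPerms μ, permAct K (Fin n → K) ρ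

/-- Column antisymmetrizer. -/
noncomputable def colAnti (K : Type*) [Field K] (n : ℕ) (μ : YoungDiagram) :
    TensPow K (Fin n → K) μ →ₗ[K] TensPow K (Fin n → K) μ :=
  ∑ κ ∈ colPerms μ, ((Equiv.Perm.sign κ : ℤ) : K) • permAct K (Fin n → K) κ

theorem youngSymmetrizer_eq : youngSymmetrizer K (Fin n → K) μ = rowSym K n μ ∘ₗ colAnti K n μ := rfl

theorem rowSym_perm {τ : Equiv.Perm μ.cells} (hτ : τ ∈ rowPerms μ) :
    rowSym K n μ ∘ₗ permAct K (Fin n → K) τ = rowSym K n μ := by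
  rw [rowSym, sum_comp']
  refine Finset.sum_bij (fun ρ _ => ρ * τ) ?_ ?_ ?_ ?_
  · intro ρ hρ
    exact mul_mem_rowPerms hρ hτ
  · intro a _ b _ h
    exact mul_right_cancel h
  · intro b hb
    exact ⟨b * τ⁻¹, mul_mem_rowPerms hb (inv_mem_rowPerms hτ), by group⟩
  · intro ρ _
    rw [permAct_mul]

theorem colAnti_perm {κ₀ : Equiv.Perm μ.cells} (h : κ₀ ∈ colPerms μ) :
    colAnti K n μ ∘ₗ permAct K (Fin n → K) κ₀⁻¹ = ((Equiv.Perm.sign κ₀ : ℤ) : K) • colAnti K n μ := by
  rw [colAnti, sum_comp', Finset.smul_sum]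
  refine Finset.sum_bij (fun κ _ => κ * κ₀⁻¹) ?_ ?_ ?_ ?_
  · intro κ hκ
    exact mul_mem_colPerms hκ (inv_mem_colPerms h)
  · intro a _ b _ h
    exact mul_right_cancel h
  · intro b hb
    exact ⟨b * κ₀, mul_mem_colPerms hb h, by group⟩
  · intro κ _
    rw [permAct_mul, LinearMap.smul_comp, smul_smul]
    congr 1
    rw [Equiv.Perm.sign_mul, Equiv.Perm.sign_inv]
    push_cast
    have h1 : ((Equiv.Perm.sign κ₀ : ℤ) : K) * ((Equiv.Perm.sign κ₀ : ℤ) : K) = 1 := by
      rw [← Int.cast_mul, ← Units.val_mul, Int.units_mul_self]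
      simp
    calc ((Equiv.Perm.sign κ : ℤ) : K) = ((Equiv.Perm.sign κ : ℤ) : K) *
        (((Equiv.Perm.sign κ₀ : ℤ) : K) * ((Equiv.Perm.sign κ₀ : ℤ) : K)) := by rw [h1, mul_one]
      _ = _ := by ring

theorem sum_sign_perm_eq_zero {Z : Finset μ.cells}
    (hZ : ∀ κ ∈ colPerms μ, ∃ c ∈ Z, ∃ c' ∈ Z, c ≠ c' ∧ (κ c).1.1 = (κ c').1.1) :
    youngSymmetrizer K (Fin n → K) μ ∘ₗ
      (∑ σ ∈ permsOn Z, ((Equiv.Perm.sign σ : ℤ) : K) • permAct K (Fin n → K) σ⁻¹) = 0 := by
  rw [youngSymmetrizer_eq, colAnti, LinearMap.comp_assoc, sum_comp',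
    comp_sum']
  apply Finset.sum_eq_zero
  intro κ hκ
  rw [LinearMap.smul_comp, LinearMap.comp_smul, comp_sum', comp_sum']
  have key : ∑ σ ∈ permsOn Z, rowSym K n μ ∘ₗ
      (permAct K (Fin n → K) κ ∘ₗ (((Equiv.Perm.sign σ : ℤ) : K) • permAct K (Fin n → K) σ⁻¹)) = 0 := by
    obtain ⟨c, hc, c', hc', hne, hrow⟩ := hZ κ hκ
    have hτ : Equiv.swap (κ c) (κ c') ∈ rowPerms μ := swap_mem_rowPerms hrow
    have hconj : κ * Equiv.swap c c' = Equiv.swap (κ c) (κ c') * κ := by
      rw [Equiv.mul_swap_eq_swap_mul]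
    refine Finset.sum_involution (fun σ _ => σ * Equiv.swap c c') ?_ ?_ ?_ ?_
    · intro σ _
      rw [mul_inv_rev, Equiv.swap_inv, Equiv.Perm.sign_mul, Equiv.Perm.sign_swap hne]
      have h1 : rowSym K n μ ∘ₗ (permAct K (Fin n → K) κ ∘ₗ permAct K (Fin n → K) (Equiv.swap c c' * σ⁻¹)) =
          rowSym K n μ ∘ₗ (permAct K (Fin n → K) κ ∘ₗ permAct K (Fin n → K) σ⁻¹) := by
        rw [← permAct_mul, ← permAct_mul, ← mul_assoc, hconj, mul_assoc,
          permAct_mul (Equiv.swap (κ c) (κ c')), ← LinearMap.comp_assoc, rowSym_perm hτ]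
      rw [LinearMap.comp_smul, LinearMap.comp_smul, LinearMap.comp_smul, LinearMap.comp_smul, h1,
        ← add_smul]
      push_cast
      rw [mul_neg, mul_one, add_neg_cancel, zero_smul]
    · intro σ _ _ hcon
      have : Equiv.swap c c' = 1 := mul_eq_left.mp hcon
      rw [Equiv.swap_eq_one_iff] at this
      exact hne this
    · intro σ hσ
      rw [mem_permsOn] at *
      intro x hx
      rw [Equiv.Perm.mul_apply, Equiv.swap_apply_of_ne_of_ne, hσ x hx]
      · rintro rfl; exact hx hc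
      · rintro rfl; exact hx hc'
    · intro σ _
      simp
  rw [key, smul_zero]

/-- The Young symmetrizer with values in the Schur functor. -/
noncomputable def yR (K : Type*) [Field K] (n : ℕ) (μ : YoungDiagram) :
    TensPow K (Fin n → K) μ →ₗ[K] (schurFunctor (stdRep K n) μ).toSubmodule :=
  (youngSymmetrizer K (Fin n → K) μ).rangeRestrict

theorem yR_coe (x : TensPow K (Fin n → K) μ) : (yR K n μ x : TensPow K (Fin n → K) μ) = youngSymmetrizer K (Fin n → K) μ x := rfl

theorem yR_surjective : Function.Surjective (yR K n μ) := LinearMap.surjective_rangeRestrict _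

/-- The relations with coefficients in `K`. -/
def IsRelK (K : Type*) [Field K] {S : Type*} [AddCommMonoid S] [Module K S]
    (f : Fill n μ → S) : Prop :=
  (∀ κ ∈ colPerms μ, ∀ T, f (T ∘ κ) = ((Equiv.Perm.sign κ : ℤ) : K) • f T) ∧
    ∀ Z : Finset μ.cells,
      (∀ κ ∈ colPerms μ, ∃ c ∈ Z, ∃ c' ∈ Z, c ≠ c' ∧ (κ c).1.1 = (κ c').1.1) →
      ∀ T, ∑ σ ∈ permsOn Z, ((Equiv.Perm.sign σ : ℤ) : K) • f (T ∘ σ) = 0

theorem IsRelK.map {S A : Type*} [AddCommMonoid S] [Module K S] [AddCommMonoid A] [Module K A]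
    {f : Fill n μ → S} (hf : IsRelK K f) (φ : S →ₗ[K] A) : IsRelK K (fun T => φ (f T)) := by
  refine ⟨fun κ hκ T => ?_, fun Z hZ T => ?_⟩
  · change φ (f (T ∘ κ)) = _
    rw [hf.1 κ hκ T, map_smul]
  · have := congrArg φ (hf.2 Z hZ T)
    rw [map_zero, map_sum] at this
    rw [← this]
    refine Finset.sum_congr rfl fun σ _ => ?_
    rw [map_smul]

theorem IsRelK.isRel {A : Type*} [AddCommGroup A] [Module K A] {f : Fill n μ → A}
    (hf : IsRelK K f) : IsRel f := by
  refine ⟨fun κ hκ T => ?_, fun Z hZ T => ?_⟩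
  · rw [hf.1 κ hκ T, Int.cast_smul_eq_zsmul]
  · have := hf.2 Z hZ T
    simpa only [Int.cast_smul_eq_zsmul] using this

theorem isRelK_yR : IsRelK K (fun T : Fill n μ => yR K n μ (tb K n μ T)) := by
  refine ⟨fun κ hκ T => ?_, fun Z hZ T => ?_⟩
  · apply Subtype.ext
    have h1 : tb K n μ (T ∘ κ) = permAct K (Fin n → K) κ⁻¹ (tb K n μ T) := by
      rw [permAct_tb, inv_inv]
    have h2 := LinearMap.congr_fun (colAnti_perm (K := K) (n := n) hκ) (tb K n μ T)
    rw [LinearMap.comp_apply, LinearMap.smul_apply] at h2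
    rw [Submodule.coe_smul_of_tower, yR_coe, yR_coe, youngSymmetrizer_eq, LinearMap.comp_apply,
      LinearMap.comp_apply, h1, h2, map_smul]
  · have h3 := LinearMap.congr_fun (sum_sign_perm_eq_zero (K := K) (n := n) hZ) (tb K n μ T)
    apply Subtype.ext
    rw [LinearMap.comp_apply, LinearMap.zero_apply, LinearMap.sum_apply, map_sum] at h3
    rw [Submodule.coe_sum, Submodule.coe_zero, ← h3]
    refine Finset.sum_congr rfl fun σ _ => ?_
    rw [Submodule.coe_smul_of_tower, yR_coe, LinearMap.smul_apply, permAct_tb, inv_inv, map_smul]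

theorem repr_yR (T T₀ : Fill n μ) : (tb K n μ).repr (youngSymmetrizer K (Fin n → K) μ (tb K n μ T)) T₀ =
    ∑ κ ∈ colPerms μ, ∑ ρ ∈ rowPerms μ, ((Equiv.Perm.sign κ : ℤ) : K) *
      (if (T ∘ ⇑κ⁻¹) ∘ ⇑ρ⁻¹ = T₀ then 1 else 0) := by
  rw [youngSymmetrizer_eq, LinearMap.comp_apply, colAnti, LinearMap.sum_apply, map_sum, map_sum,
    Finsupp.finsetSum_apply]
  refine Finset.sum_congr rfl fun κ _ => ?_
  rw [LinearMap.smul_apply, map_smul, map_smul, Finsupp.smul_apply, permAct_tb, rowSym,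
    LinearMap.sum_apply, map_sum, Finsupp.finsetSum_apply, Finset.smul_sum]
  refine Finset.sum_congr rfl fun ρ _ => ?_
  rw [permAct_tb, Module.Basis.repr_self, Finsupp.single_apply, smul_eq_mul]

/-- Stabilizer of a filling in the row group. -/
def rowStab (T : Fill n μ) : Subgroup (Equiv.Perm μ.cells) where
  carrier := {ρ | ρ ∈ rowPerms μ ∧ T ∘ ⇑ρ⁻¹ = T}
  mul_mem' := by
    rintro a b ⟨ha, ha'⟩ ⟨hb, hb'⟩
    refine ⟨mul_mem_rowPerms ha hb, ?_⟩
    rw [mul_inv_rev]
    change (T ∘ ⇑b⁻¹) ∘ ⇑a⁻¹ = T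
    rw [hb', ha']
  one_mem' := ⟨by simp [mem_rowPerms], by simp⟩
  inv_mem' := by
    rintro a ⟨ha, ha'⟩
    refine ⟨inv_mem_rowPerms ha, ?_⟩
    rw [inv_inv]
    conv_lhs => rw [← ha']
    funext x
    rw [Function.comp_apply, Function.comp_apply, perm_inv_apply]

theorem indep (hd : ((μ.card.factorial : ℕ) : K) ≠ 0) :
    LinearIndependent K (fun T : {T : Fill n μ // IsSemistandard T} =>
      yR K n μ (tb K n μ T)) := by
  classical
  apply LinearIndependent.of_comp
    ((tb K n μ).repr.toLinearMap ∘ₗ (schurFunctor (stdRep K n) μ).toSubmodule.subtype)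
  rw [Fintype.linearIndependent_iff]
  intro l hl
  by_contra hcon
  push Not at hcon
  obtain ⟨T1, hT1⟩ := hcon
  obtain ⟨T₀, hT₀, hmax⟩ := Finset.exists_max_image
    (Finset.univ.filter fun T : {T : Fill n μ // IsSemistandard T} => l T ≠ 0)
    (fun T => phi (T : Fill n μ)) ⟨T1, by simpa using hT1⟩
  rw [Finset.mem_filter] at hT₀
  have h1 := congrArg (fun x : Fill n μ →₀ K => x T₀) hl
  simp only [Finsupp.finsetSum_apply, Finsupp.smul_apply, Function.comp_apply,
    LinearMap.comp_apply, Submodule.subtype_apply, LinearEquiv.coe_coe, Finsupp.zero_apply,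
    yR_coe, smul_eq_mul] at h1
  rw [Finset.sum_eq_single T₀] at h1
  · rcases mul_eq_zero.mp h1 with h | h
    · exact hT₀.2 h
    · rw [repr_yR, Finset.sum_eq_single (1 : Equiv.Perm μ.cells)] at h
      · simp only [Equiv.Perm.sign_one, Units.val_one, Int.cast_one, one_mul, inv_one,
          Equiv.Perm.coe_one, Function.comp_id] at h
        rw [Finset.sum_boole] at h
        have h2 : Nat.card (rowStab (T₀ : Fill n μ)) =
            ((rowPerms μ).filter fun ρ : Equiv.Perm μ.cells => (T₀ : Fill n μ) ∘ ⇑ρ⁻¹ = T₀).card :=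
          Nat.subtype_card _ fun σ => by
            rw [Finset.mem_filter]
            rfl
        exact cast_ne_zero_of_dvd hd (h2 ▸ card_dvd_factorial (rowStab (T₀ : Fill n μ))) h
      · intro κ hκ hne
        apply Finset.sum_eq_zero
        intro ρ hρ
        rw [if_neg, mul_zero]
        intro h3
        have h4 := phi_row ((T₀ : Fill n μ) ∘ ⇑κ⁻¹) (inv_mem_rowPerms hρ)
        rw [h3] at h4
        have h5 := phi_lt T₀.2.2 (inv_mem_colPerms hκ) (by simpa using hne)
        rw [← h4] at h5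
        exact lt_irrefl _ h5
      · intro h3
        exact absurd (by simp [mem_colPerms]) h3
  · intro T _ hne
    by_cases hl0 : l T = 0
    · rw [hl0, zero_mul]
    rw [repr_yR]
    rw [Finset.sum_eq_zero, mul_zero]
    intro κ hκ
    apply Finset.sum_eq_zero
    intro ρ hρ
    rw [if_neg, mul_zero]
    intro h3
    have h4 := phi_row ((T : Fill n μ) ∘ ⇑κ⁻¹) (inv_mem_rowPerms hρ)
    rw [h3] at h4
    have h5 := hmax T (by simpa using hl0)
    by_cases hk1 : κ = 1
    · subst hk1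
      simp only [inv_one, Equiv.Perm.coe_one, Function.comp_id] at h3
      have h6 := row_unique (T := (T : Fill n μ)) (inv_mem_rowPerms hρ) T.2.1 (by
        rw [h3]; exact T₀.2.1)
      rw [h3] at h6
      exact hne (Subtype.ext h6.symm)
    · have h6 := phi_lt T.2.2 (inv_mem_colPerms hκ) (by simpa using hk1)
      rw [← h4] at h6
      exact absurd h5 (not_le.mpr h6)
  · intro h
    exact absurd (Finset.mem_univ _) h

theorem span_of_isRelK (hd : ((μ.card.factorial : ℕ) : K) ≠ 0) {S : Type*} [AddCommMonoid S]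
    [Module K S] {v : Fill n μ → S} (hv : IsRelK K v) (hs : ⊤ ≤ Submodule.span K (Set.range v)) :
    ⊤ ≤ Submodule.span K (Set.range fun T : {T : Fill n μ // IsSemistandard T} => v T) := by
  let _ : AddCommGroup S := Module.addCommMonoidToAddCommGroup K
  set W := Submodule.span K (Set.range fun T : {T : Fill n μ // IsSemistandard T} => v T) with hW
  have h1 : ∀ T : Fill n μ, W.mkQ (v T) = 0 := by
    refine rel_unique (K := K) hd (hv.map W.mkQ).isRel ?_
    intro T hT
    change W.mkQ (v T) = 0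
    rw [Submodule.mkQ_apply, Submodule.Quotient.mk_eq_zero]
    exact Submodule.subset_span ⟨⟨T, hT⟩, rfl⟩
  refine hs.trans ?_
  rw [Submodule.span_le]
  rintro _ ⟨T, rfl⟩
  have := h1 T
  rw [Submodule.mkQ_apply, Submodule.Quotient.mk_eq_zero] at this
  exact this

theorem span_eq_top (hd : ((μ.card.factorial : ℕ) : K) ≠ 0) :
    ⊤ ≤ Submodule.span K (Set.range fun T : {T : Fill n μ // IsSemistandard T} =>
      yR K n μ (tb K n μ T)) := by
  apply span_of_isRelK hd isRelK_yR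
  rintro x -
  obtain ⟨y, rfl⟩ := yR_surjective x
  rw [← (tb K n μ).sum_repr y, map_sum]
  apply Submodule.sum_mem
  intro T _
  rw [map_smul]
  exact Submodule.smul_mem _ _ (Submodule.subset_span ⟨T, rfl⟩)

/-- The semistandard basis of the Schur functor. -/
noncomputable def schurBasis (hd : ((μ.card.factorial : ℕ) : K) ≠ 0) :
    Module.Basis {T : Fill n μ // IsSemistandard T} K (schurFunctor (stdRep K n) μ).toSubmodule :=
  Module.Basis.mk (indep hd) (span_eq_top hd)

theorem schurBasis_apply (hd : ((μ.card.factorial : ℕ) : K) ≠ 0)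
    (T : {T : Fill n μ // IsSemistandard T}) :
    schurBasis hd T = yR K n μ (tb K n μ T) := by
  rw [schurBasis, Module.Basis.mk_apply]

/-- Every function satisfying the relations comes from a linear map. -/
theorem exists_linear_of_isRel (hd : ((μ.card.factorial : ℕ) : K) ≠ 0) {A : Type*}
    [AddCommGroup A] [Module K A] {f : Fill n μ → A} (hf : IsRel f) :
    ∃ Φ : (schurFunctor (stdRep K n) μ).toSubmodule →ₗ[K] A, ∀ T, Φ (yR K n μ (tb K n μ T)) = f T := by
  refine ⟨(schurBasis hd).constr K fun T => f T, ?_⟩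
  intro T
  have h1 := rel_unique (K := K) hd ((isRelK_yR.map
    ((schurBasis hd).constr K fun T => f T)).isRel.sub hf) (by
      intro T hT
      have h2 := (schurBasis hd).constr_basis K (fun T => f T) ⟨T, hT⟩
      rw [schurBasis_apply] at h2
      exact sub_eq_zero.mpr h2) T
  exact sub_eq_zero.mp h1

end Pool.Agent.Socle
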