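import Pool.Agent.Socle.Action

set_option autoImplicit false

namespace Pool.Agent.Socle

open MvPolynomial

section Abstract

variable {S : Type*} [CommRing S]

/-- Lift a polynomial with coefficients in a subring. -/
theorem exists_lift (B : Subring S) (F : Polynomial S) (hF : ∀ m, F.coeff m ∈ B) :
    ∃ f : Polynomial B, f.map B.subtype = F := by
  rw [← Polynomial.mem_lifts, Polynomial.lifts_iff_coeff_lifts]
  intro m
  exact ⟨⟨F.coeff m, hF m⟩, rfl⟩

theorem coeff_mem_of_mul (B : Subring S) (F F1 Q : Polynomial S)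
    (hF : ∀ m, F.coeff m ∈ B) (hF1 : ∀ m, F1.coeff m ∈ B) (hm : F1.Monic) (h : F = F1 * Q) :
    ∀ m, Q.coeff m ∈ B := by
  obtain ⟨f, rfl⟩ := exists_lift B F hF
  obtain ⟨f1, rfl⟩ := exists_lift B F1 hF1
  have hinj : Function.Injective B.subtype := Subtype.val_injective
  have hm1 : f1.Monic := Polynomial.monic_of_injective hinj hm
  have hdvd : f1 ∣ f := by
    rw [← Polynomial.map_dvd_map _ hinj hm1]
    exact ⟨Q, h⟩
  obtain ⟨q, rfl⟩ := hdvd
  rw [Polynomial.map_mul] at h
  have hq : q.map B.subtype = Q := hm.isRegular.left h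
  intro m
  rw [← hq, Polynomial.coeff_map]
  exact (q.coeff m).2

theorem exists_reduce (B : Subring S) (x : S) (Q h : Polynomial S) (hQm : Q.Monic)
    (hQ : ∀ m, Q.coeff m ∈ B) (hh : ∀ m, h.coeff m ∈ B) (hQ0 : Q.eval x = 0) :
    ∃ c : ℕ → S, (∀ s, c s ∈ B) ∧ h.eval x = ∑ s ∈ Finset.range Q.natDegree, c s * x ^ s := by
  obtain ⟨q, rfl⟩ := exists_lift B Q hQ
  obtain ⟨g, rfl⟩ := exists_lift B h hh
  have hinj : Function.Injective B.subtype := Subtype.val_injective
  have hqm : q.Monic := Polynomial.monic_of_injective hinj hQm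
  have h1 : (g.map B.subtype).eval x = ((g %ₘ q).map B.subtype).eval x := by
    conv_lhs => rw [← Polynomial.modByMonic_add_div g q]
    rw [Polynomial.map_add, Polynomial.map_mul, Polynomial.eval_add, Polynomial.eval_mul, hQ0,
      zero_mul, add_zero]
  refine ⟨fun s => ((g %ₘ q).coeff s : S), fun s => ((g %ₘ q).coeff s).2, ?_⟩
  rw [h1]
  rw [Polynomial.natDegree_map_eq_of_injective hinj]
  by_cases hd0 : q = 1
  · rw [hd0]
    simp
  · have hdeg := Polynomial.natDegree_modByMonic_lt g hqm hd0
    have hdeg' : ((g %ₘ q).map B.subtype).natDegree < q.natDegree :=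
      lt_of_le_of_lt Polynomial.natDegree_map_le hdeg
    rw [Polynomial.eval_eq_sum_range' hdeg']
    refine Finset.sum_congr rfl fun s _ => ?_
    rw [Polynomial.coeff_map]
    rfl

theorem prod_coeff_mem (B : Subring S) {ι : Type*} (s : Finset ι) (r : ι → S)
    (hr : ∀ i ∈ s, r i ∈ B) (m : ℕ) :
    (∏ i ∈ s, (Polynomial.X - Polynomial.C (r i))).coeff m ∈ B := by
  have : ∏ i ∈ s, (Polynomial.X - Polynomial.C (r i)) ∈ Polynomial.lifts B.subtype := by
    apply Subsemiring.prod_mem
    intro i hi
    rw [Polynomial.mem_lifts]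
    exact ⟨Polynomial.X - Polynomial.C ⟨r i, hr i hi⟩, by simp⟩
  rw [Polynomial.lifts_iff_coeff_lifts] at this
  obtain ⟨b, hb⟩ := this m
  rw [← hb]
  exact b.2

end Abstract

variable {K : Type*} [Field K] {n : ℕ}

theorem mulVec_bijective (g : GL (Fin n) K) :
    Function.Bijective (fun v : Fin n → K => (g : Matrix (Fin n) (Fin n) K).mulVec v) := by
  constructor
  · intro v w h
    have := congrArg (fun z => ((g⁻¹ : GL (Fin n) K) : Matrix (Fin n) (Fin n) K).mulVec z) h
    simpa using this
  · intro v
    refine ⟨((g⁻¹ : GL (Fin n) K) : Matrix (Fin n) (Fin n) K).mulVec v, ?_⟩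
    simp

/-- The ring generated over the invariants by the first `i` variables. -/
noncomputable def Bsub (K : Type*) [Field K] (n i : ℕ) : Subring (MvPolynomial (Fin n) K) :=
  Subring.closure ((invariants K n : Set (MvPolynomial (Fin n) K)) ∪ X '' {j : Fin n | j.val < i})

theorem C_mem_Bsub (r : K) (i : ℕ) : (C r : MvPolynomial (Fin n) K) ∈ Bsub K n i := by
  apply Subring.subset_closure
  left
  exact Subalgebra.algebraMap_mem (invariants K n) r

theorem lin_mem_Bsub {i : ℕ} {v : Fin n → K} (hv : ∀ j : Fin n, i ≤ j.val → v j = 0) :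
    lin v ∈ Bsub K n i := by
  refine Subring.sum_mem _ fun j _ => ?_
  by_cases hj : j.val < i
  · exact Subring.mul_mem _ (C_mem_Bsub _ _) (Subring.subset_closure (Or.inr ⟨j, hj, rfl⟩))
  · rw [hv j (not_lt.mp hj)]
    simp

variable [Fintype K]

/-- The polynomial with roots all linear forms. -/
noncomputable def bigF (K : Type*) [Field K] [Fintype K] (n : ℕ) :
    Polynomial (MvPolynomial (Fin n) K) :=
  ∏ v : Fin n → K, (Polynomial.X - Polynomial.C (lin v))

theorem bigF_map (g : GL (Fin n) K) :
    (bigF K n).map (symAct (g : Matrix (Fin n) (Fin n) K)).toRingHom = bigF K n := by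
  rw [bigF, Polynomial.map_prod]
  simp only [Polynomial.map_sub, Polynomial.map_X, Polynomial.map_C]
  refine Fintype.prod_bijective _ (mulVec_bijective g) _ _ ?_
  intro v
  congr 2
  exact symAct_lin _ _

theorem bigF_coeff_mem (m : ℕ) : (bigF K n).coeff m ∈ invariants K n := by
  intro g
  have := congrArg (fun P => P.coeff m) (bigF_map g)
  simpa using this

theorem card_small (i : ℕ) (hi : i ≤ n)
    [DecidablePred fun v : Fin n → K => ∀ j : Fin n, i ≤ j.val → v j = 0] :
    (Finset.univ.filter fun v : Fin n → K => ∀ j : Fin n, i ≤ j.val → v j = 0).card =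
      Fintype.card K ^ i := by
  have h1 : (Finset.univ.filter fun v : Fin n → K => ∀ j : Fin n, i ≤ j.val → v j = 0).card =
      Fintype.card (Fin i → K) := by
    rw [← Finset.card_univ]
    refine (Finset.card_bij (fun (w : Fin i → K) _ => fun j : Fin n =>
      if h : j.val < i then w ⟨j.val, h⟩ else 0) ?_ ?_ ?_).symm
    · intro w _
      simp only [Finset.mem_filter, Finset.mem_univ, true_and]
      intro j hj
      rw [dif_neg (not_lt.mpr hj)]
    · intro w _ w' _ h
      funext j
      have := congrFun h (Fin.castLE hi j)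
      simpa using this
    · intro v hv
      simp only [Finset.mem_filter, Finset.mem_univ, true_and] at hv
      refine ⟨fun j => v (Fin.castLE hi j), Finset.mem_univ _, ?_⟩
      funext j
      split_ifs with h
      · rfl
      · exact (hv j (not_lt.mp h)).symm
  rw [h1, Fintype.card_fun, Fintype.card_fin]

/-- A monic relation for `x_i` over the previous ring. -/
theorem exists_relation (i : Fin n) :
    ∃ Q : Polynomial (MvPolynomial (Fin n) K), Q.Monic ∧
      Q.natDegree = Fintype.card K ^ n - Fintype.card K ^ (i : ℕ) ∧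
      (∀ m, Q.coeff m ∈ Bsub K n i) ∧ Q.eval (X i : MvPolynomial (Fin n) K) = 0 := by
  classical
  set small : Finset (Fin n → K) :=
    Finset.univ.filter fun v : Fin n → K => ∀ j : Fin n, (i : ℕ) ≤ j.val → v j = 0 with hsmall
  have hmem : ∀ v ∈ small, lin v ∈ Bsub K n i := fun v hv =>
    lin_mem_Bsub (Finset.mem_filter.mp hv).2
  have hsplit : bigF K n = (∏ v ∈ small, (Polynomial.X - Polynomial.C (lin v))) *
      (∏ v ∈ smallᶜ, (Polynomial.X - Polynomial.C (lin v))) := by
    rw [Finset.prod_mul_prod_compl]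
    rfl
  refine ⟨∏ v ∈ smallᶜ, (Polynomial.X - Polynomial.C (lin v)), ?_, ?_, ?_, ?_⟩
  · exact Polynomial.monic_prod_of_monic _ _ fun v _ => Polynomial.monic_X_sub_C _
  · rw [Polynomial.natDegree_prod_of_monic _ _ fun v _ => Polynomial.monic_X_sub_C _]
    simp only [Polynomial.natDegree_X_sub_C, Finset.sum_const, smul_eq_mul, mul_one]
    rw [Finset.card_compl, hsmall, card_small _ i.2.le]
    simp
  · refine coeff_mem_of_mul (Bsub K n i) _ _ _ ?_ ?_ ?_ hsplit
    · intro m
      exact Subring.subset_closure (Or.inl (bigF_coeff_mem m))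
    · intro m
      exact prod_coeff_mem _ _ _ hmem m
    · exact Polynomial.monic_prod_of_monic _ _ fun v _ => Polynomial.monic_X_sub_C _
  · rw [Polynomial.eval_prod]
    apply Finset.prod_eq_zero (i := Pi.single i 1)
    · rw [Finset.mem_compl, hsmall]
      simp only [Finset.mem_filter, Finset.mem_univ, true_and, not_forall]
      exact ⟨i, le_rfl, by simp⟩
    · have : lin (Pi.single i (1 : K)) = X i := by
        rw [lin, Finset.sum_eq_single i]
        · simp
        · intro j _ hj
          simp [Pi.single_eq_of_ne hj]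
        · simp
      simp [this]

/-- The span over the invariants of the reduced monomials in the first `i` variables. -/
noncomputable def Mspan (K : Type*) [Field K] [Fintype K] (n i : ℕ) :
    Submodule (invariants K n) (MvPolynomial (Fin n) K) :=
  Submodule.span _ {m | ∃ a : Fin n → ℕ, (∀ j : Fin n, j.val < i →
    a j < Fintype.card K ^ n - Fintype.card K ^ (j : ℕ)) ∧ (∀ j : Fin n, i ≤ j.val → a j = 0) ∧
      m = ∏ j, X j ^ a j}

theorem Mspan_mul {i : Fin n} {f : MvPolynomial (Fin n) K} (hf : f ∈ Mspan K n i) {s : ℕ}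
    (hs : s < Fintype.card K ^ n - Fintype.card K ^ (i : ℕ)) :
    f * X i ^ s ∈ Mspan K n (i + 1) := by
  classical
  induction hf using Submodule.span_induction with
  | mem x hx =>
    obtain ⟨a, ha1, ha2, rfl⟩ := hx
    apply Submodule.subset_span
    refine ⟨Function.update a i s, ?_, ?_, ?_⟩
    · intro j hj
      by_cases hji : j = i
      · subst hji; simpa using hs
      · rw [Function.update_of_ne hji]
        have : j.val ≠ i.val := fun h => hji (Fin.ext h)
        exact ha1 j (by omega)
    · intro j hj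
      have hji : j ≠ i := by rintro rfl; omega
      rw [Function.update_of_ne hji]
      exact ha2 j (by omega)
    · rw [← Finset.mul_prod_erase Finset.univ _ (Finset.mem_univ i),
        ← Finset.mul_prod_erase Finset.univ (fun j => X j ^ Function.update a i s j)
          (Finset.mem_univ i), Function.update_self, ha2 i le_rfl, pow_zero, one_mul, mul_comm]
      congr 1
      refine Finset.prod_congr rfl fun j hj => ?_
      rw [Function.update_of_ne (Finset.ne_of_mem_erase hj)]
  | zero => rw [zero_mul]; exact Submodule.zero_mem _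
  | add x y _ _ hx hy => rw [add_mul]; exact Submodule.add_mem _ hx hy
  | smul r x _ hx => rw [smul_mul_assoc]; exact Submodule.smul_mem _ _ hx

omit [Fintype K] in
theorem Bsub_succ {i : Fin n} {f : MvPolynomial (Fin n) K} (hf : f ∈ Bsub K n (i + 1)) :
    ∃ h : Polynomial (MvPolynomial (Fin n) K), (∀ m, h.coeff m ∈ Bsub K n i) ∧
      h.eval (X i) = f := by
  have key : f ∈ (Polynomial.liftsRing (Bsub K n i).subtype).map
      (Polynomial.evalRingHom (X i : MvPolynomial (Fin n) K)) := by
    have hle : Bsub K n (i + 1) ≤ (Polynomial.liftsRing (Bsub K n i).subtype).map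
      (Polynomial.evalRingHom (X i : MvPolynomial (Fin n) K)) := by
      rw [Bsub, Subring.closure_le]
      rintro x (hx | ⟨j, hj, rfl⟩)
      · refine ⟨Polynomial.C x, ?_, by simp⟩
        exact ⟨Polynomial.C ⟨x, Subring.subset_closure (Or.inl hx)⟩, by simp⟩
      · by_cases hji : j = i
        · subst hji
          exact ⟨Polynomial.X, ⟨Polynomial.X, by simp⟩, by simp⟩
        · have : j.val ≠ i.val := fun h => hji (Fin.ext h)
          have hj' : j.val < i.val := by
            have : j.val < i.val + 1 := hj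
            omega
          refine ⟨Polynomial.C (X j), ?_, by simp⟩
          exact ⟨Polynomial.C ⟨X j, Subring.subset_closure (Or.inr ⟨j, hj', rfl⟩)⟩, by simp⟩
    exact hle hf
  obtain ⟨h, hh, rfl⟩ := key
  refine ⟨h, ?_, rfl⟩
  intro m
  obtain ⟨h', rfl⟩ := hh
  change (h'.map (Bsub K n i).subtype).coeff m ∈ _
  rw [Polynomial.coeff_map]
  exact (h'.coeff m).2

theorem Bsub_le_Mspan (i : ℕ) (hi : i ≤ n) {f : MvPolynomial (Fin n) K} (hf : f ∈ Bsub K n i) :
    f ∈ Mspan K n i := by
  induction i generalizing f with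
  | zero =>
    have h0 : (X '' {j : Fin n | j.val < 0} : Set (MvPolynomial (Fin n) K)) = ∅ := by
      simp
    have h1 : Bsub K n 0 ≤ (invariants K n).toSubring := by
      rw [Bsub, h0, Set.union_empty, Subring.closure_le]
      exact fun x hx => hx
    have hf' : f ∈ invariants K n := h1 hf
    have h2 : f = (⟨f, hf'⟩ : invariants K n) • (1 : MvPolynomial (Fin n) K) := by
      rw [Subalgebra.smul_def, smul_eq_mul, mul_one]
    rw [h2]
    apply Submodule.smul_mem
    apply Submodule.subset_span
    exact ⟨fun _ => 0, fun j hj => absurd hj (by omega), fun _ _ => rfl, by simp⟩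
  | succ i ih =>
    obtain ⟨Q, hQm, hQd, hQc, hQ0⟩ := exists_relation (K := K) (⟨i, hi⟩ : Fin n)
    obtain ⟨h, hh, rfl⟩ := Bsub_succ (K := K) (i := (⟨i, hi⟩ : Fin n)) hf
    obtain ⟨c, hc, hsum⟩ := exists_reduce _ _ Q h hQm hQc hh hQ0
    rw [hsum]
    refine Submodule.sum_mem _ fun s hs => ?_
    rw [Finset.mem_range, hQd] at hs
    exact Mspan_mul (i := (⟨i, hi⟩ : Fin n)) (ih (by omega) (hc s)) hs

omit [Fintype K] in
theorem mem_Bsub (f : MvPolynomial (Fin n) K) : f ∈ Bsub K n n := by
  induction f using MvPolynomial.induction_on with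
  | C r => exact C_mem_Bsub _ _
  | add p q hp hq => exact Subring.add_mem _ hp hq
  | mul_X p j hp => exact Subring.mul_mem _ hp (Subring.subset_closure (Or.inr ⟨j, j.2, rfl⟩))

/-- The exponents of the free basis. -/
abbrev Box (K : Type*) [Fintype K] (n : ℕ) : Type :=
  ∀ j : Fin n, Fin (Fintype.card K ^ n - Fintype.card K ^ (j : ℕ))

/-- The free basis of the polynomial ring over the invariants. -/
noncomputable def boxMon (K : Type*) [Field K] [Fintype K] (n : ℕ) (a : Box K n) :
    MvPolynomial (Fin n) K := ∏ j, X j ^ (a j : ℕ)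

theorem box_span (f : MvPolynomial (Fin n) K) : ∃ c : Box K n → MvPolynomial (Fin n) K,
    (∀ a, c a ∈ invariants K n) ∧ f = ∑ a, c a * boxMon K n a := by
  have h1 := Bsub_le_Mspan n le_rfl (mem_Bsub f)
  have h2 : Mspan K n n ≤ Submodule.span (invariants K n) (Set.range (boxMon K n)) := by
    rw [Mspan, Submodule.span_le]
    rintro m ⟨a, ha, -, rfl⟩
    exact Submodule.subset_span ⟨fun j => ⟨a j, ha j j.2⟩, rfl⟩
  obtain ⟨c, hc⟩ := (Submodule.mem_span_range_iff_exists_fun _).mp (h2 h1)
  exact ⟨fun a => c a, fun a => (c a).2, hc.symm⟩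

theorem box_indep (c : Box K n → MvPolynomial (Fin n) K) (hc : ∀ a, c a ∈ invariants K n)
    (h0 : ∑ a, c a * boxMon K n a = 0) : c = 0 := by
  classical
  have : Fintype (GL (Fin n) K) := Fintype.ofFinite _
  refine indep_of_span (boxMon K n) ?_ box_span c hc h0
  rw [← Nat.card_eq_fintype_card, Matrix.card_GL_field]
  simp [Box]

end Pool.Agent.Socle
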