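import Pool.Agent.Socle.Defs

set_option autoImplicit false

namespace Pool.Agent.Socle

open scoped TensorProduct

variable {n : ℕ} {μ : YoungDiagram}

theorem perm_apply_inv {α : Type*} (σ : Equiv.Perm α) (c : α) : σ (σ⁻¹ c) = c :=
  σ.apply_symm_apply c

theorem perm_inv_apply {α : Type*} (σ : Equiv.Perm α) (c : α) : σ⁻¹ (σ c) = c :=
  σ.symm_apply_apply c

/-- Fillings of the diagram. -/
abbrev Fill (n : ℕ) (μ : YoungDiagram) : Type := μ.cells → Fin n

/-- Permutations supported in a set of cells. -/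
def permsOn (Z : Finset μ.cells) : Finset (Equiv.Perm μ.cells) :=
  Finset.univ.filter fun σ => ∀ c, c ∉ Z → σ c = c

theorem mem_permsOn {Z : Finset μ.cells} {σ : Equiv.Perm μ.cells} :
    σ ∈ permsOn Z ↔ ∀ c, c ∉ Z → σ c = c := by simp [permsOn]

theorem mem_colPerms {σ : Equiv.Perm μ.cells} :
    σ ∈ colPerms μ ↔ ∀ c, (σ c).1.2 = c.1.2 := by simp [colPerms]

theorem mem_rowPerms {σ : Equiv.Perm μ.cells} :
    σ ∈ rowPerms μ ↔ ∀ c, (σ c).1.1 = c.1.1 := by simp [rowPerms]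

/-- The relations satisfied by the functions coming from linear maps on the Schur functor. -/
def IsRel {A : Type*} [AddCommGroup A] (f : Fill n μ → A) : Prop :=
  (∀ κ ∈ colPerms μ, ∀ T : Fill n μ, f (T ∘ κ) = (Equiv.Perm.sign κ : ℤ) • f T) ∧
  (∀ Z : Finset μ.cells,
    (∀ κ ∈ colPerms μ, ∃ c ∈ Z, ∃ c' ∈ Z, c ≠ c' ∧ (κ c).1.1 = (κ c').1.1) →
    ∀ T : Fill n μ, ∑ σ ∈ permsOn Z, (Equiv.Perm.sign σ : ℤ) • f (T ∘ σ) = 0)

/-- Column statistic. -/
def psi (T : Fill n μ) : ℤ := ∑ c, (c.1.2 : ℤ) * (T c : ℤ)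
/-- Row statistic. -/
def phi (T : Fill n μ) : ℤ := ∑ c, (c.1.1 : ℤ) * (T c : ℤ)

theorem phi_swap (T : Fill n μ) {c c' : μ.cells} (h : c ≠ c') :
    phi (T ∘ Equiv.swap c c') = phi T + ((c'.1.1 : ℤ) - c.1.1) * ((T c : ℤ) - T c') := by
  have h1 : phi (T ∘ Equiv.swap c c') - phi T =
      ∑ x, (x.1.1 : ℤ) * ((T (Equiv.swap c c' x) : ℤ) - T x) := by
    rw [phi, phi, ← Finset.sum_sub_distrib]
    refine Finset.sum_congr rfl fun x _ => ?_
    simp only [Function.comp_apply]
    ring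
  have h2 : ∑ x, (x.1.1 : ℤ) * ((T (Equiv.swap c c' x) : ℤ) - T x) =
      ∑ x ∈ ({c, c'} : Finset μ.cells), (x.1.1 : ℤ) * ((T (Equiv.swap c c' x) : ℤ) - T x) := by
    symm
    apply Finset.sum_subset (Finset.subset_univ _)
    intro x _ hx
    simp only [Finset.mem_insert, Finset.mem_singleton, not_or] at hx
    rw [Equiv.swap_apply_of_ne_of_ne hx.1 hx.2]
    ring
  rw [h2, Finset.sum_pair h, Equiv.swap_apply_left, Equiv.swap_apply_right] at h1
  linarith

theorem psi_col (T : Fill n μ) {κ : Equiv.Perm μ.cells} (hκ : κ ∈ colPerms μ) :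
    psi (T ∘ κ) = psi T := by
  rw [psi, psi, ← Equiv.sum_comp κ fun c => (c.1.2 : ℤ) * (T c : ℤ)]
  refine Finset.sum_congr rfl fun c _ => ?_
  rw [mem_colPerms.mp hκ c]
  rfl

theorem phi_row (T : Fill n μ) {ρ : Equiv.Perm μ.cells} (hρ : ρ ∈ rowPerms μ) :
    phi (T ∘ ρ) = phi T := by
  rw [phi, phi, ← Equiv.sum_comp ρ fun c => (c.1.1 : ℤ) * (T c : ℤ)]
  refine Finset.sum_congr rfl fun c _ => ?_
  rw [mem_rowPerms.mp hρ c]
  rfl

/-- Columns increase strictly. -/
def ColStrict (T : Fill n μ) : Prop :=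
  ∀ c c' : μ.cells, c.1.2 = c'.1.2 → c.1.1 < c'.1.1 → T c < T c'

theorem swap_mem_colPerms {c c' : μ.cells} (h : c.1.2 = c'.1.2) :
    Equiv.swap c c' ∈ colPerms μ := by
  rw [mem_colPerms]
  intro x
  by_cases h1 : x = c
  · rw [h1, Equiv.swap_apply_left, h]
  by_cases h2 : x = c'
  · rw [h2, Equiv.swap_apply_right, h]
  rw [Equiv.swap_apply_of_ne_of_ne h1 h2]

theorem swap_mem_rowPerms {c c' : μ.cells} (h : c.1.1 = c'.1.1) :
    Equiv.swap c c' ∈ rowPerms μ := by
  rw [mem_rowPerms]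
  intro x
  by_cases h1 : x = c
  · rw [h1, Equiv.swap_apply_left, h]
  by_cases h2 : x = c'
  · rw [h2, Equiv.swap_apply_right, h]
  rw [Equiv.swap_apply_of_ne_of_ne h1 h2]

theorem mul_mem_colPerms {σ τ : Equiv.Perm μ.cells} (hσ : σ ∈ colPerms μ) (hτ : τ ∈ colPerms μ) :
    σ * τ ∈ colPerms μ := by
  rw [mem_colPerms] at *
  intro c
  rw [Equiv.Perm.mul_apply, hσ, hτ]

theorem inv_mem_colPerms {σ : Equiv.Perm μ.cells} (hσ : σ ∈ colPerms μ) :
    σ⁻¹ ∈ colPerms μ := by
  rw [mem_colPerms] at *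
  intro c
  rw [← hσ (σ⁻¹ c), perm_apply_inv]

theorem mul_mem_rowPerms {σ τ : Equiv.Perm μ.cells} (hσ : σ ∈ rowPerms μ) (hτ : τ ∈ rowPerms μ) :
    σ * τ ∈ rowPerms μ := by
  rw [mem_rowPerms] at *
  intro c
  rw [Equiv.Perm.mul_apply, hσ, hτ]

theorem inv_mem_rowPerms {σ : Equiv.Perm μ.cells} (hσ : σ ∈ rowPerms μ) :
    σ⁻¹ ∈ rowPerms μ := by
  rw [mem_rowPerms] at *
  intro c
  rw [← hσ (σ⁻¹ c), perm_apply_inv]

theorem cell_ext {c c' : μ.cells} (h1 : c.1.1 = c'.1.1) (h2 : c.1.2 = c'.1.2) : c = c' :=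
  Subtype.ext (Prod.ext h1 h2)

/-- A column permutation keeping a column strict tableau column strict is trivial. -/
theorem eq_one_of_colStrict {T : Fill n μ} (hT : ColStrict T) {κ : Equiv.Perm μ.cells}
    (hκ : κ ∈ colPerms μ) (hTκ : ColStrict (T ∘ κ)) : κ = 1 := by
  classical
  rw [mem_colPerms] at hκ
  have hmono : ∀ c c' : μ.cells, c.1.2 = c'.1.2 → c.1.1 < c'.1.1 → (κ c).1.1 < (κ c').1.1 := by
    intro c c' h1 h2
    by_contra hcon
    rcases eq_or_lt_of_le (not_lt.mp hcon) with h | h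
    · have : κ c' = κ c := cell_ext h (by rw [hκ, hκ, h1])
      rw [κ.injective this] at h2
      exact lt_irrefl _ h2
    · have h3 := hTκ c c' h1 h2
      have h4 := hT (κ c') (κ c) (by rw [hκ, hκ, h1]) h
      exact lt_asymm h3 h4
  by_contra hne
  have hex : ∃ m : ℕ, ∃ c : μ.cells, κ c ≠ c ∧ c.1.1 = m := by
    by_contra hcon
    push Not at hcon
    apply hne
    ext1 c
    by_contra hc
    exact hcon c.1.1 c hc rfl
  obtain ⟨c, hc, hcm⟩ := Nat.find_spec hex
  have hmin : ∀ c' : μ.cells, c'.1.1 < c.1.1 → κ c' = c' := by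
    intro c' hc'
    by_contra hcon
    exact Nat.find_min hex (by rw [← hcm]; exact hc') ⟨c', hcon, rfl⟩
  have h1 : c.1.1 < (κ c).1.1 := by
    rcases lt_trichotomy (κ c).1.1 c.1.1 with h | h | h
    · exact absurd (κ.injective (hmin _ h)) hc
    · exact absurd (cell_ext h (hκ c)) hc
    · exact h
  have hc2 : κ (κ⁻¹ c) = c := perm_apply_inv κ c
  have hcol : (κ⁻¹ c).1.2 = c.1.2 := by rw [← hκ (κ⁻¹ c), hc2]
  rcases lt_trichotomy (κ⁻¹ c).1.1 c.1.1 with h | h | h
  · have := hmin _ h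
    rw [hc2] at this
    rw [← this] at h
    exact lt_irrefl _ h
  · have h5 : κ⁻¹ c = c := cell_ext h hcol
    rw [h5] at hc2
    exact hc hc2
  · have := hmono c (κ⁻¹ c) hcol.symm h
    rw [hc2] at this
    exact lt_asymm h1 this

theorem phi_lt {T : Fill n μ} (hT : ColStrict T) {κ : Equiv.Perm μ.cells}
    (hκ : κ ∈ colPerms μ) (hne : κ ≠ 1) : phi (T ∘ κ) < phi T := by
  classical
  have hwf : WellFounded (fun κ κ' : Equiv.Perm μ.cells => phi (T ∘ κ') < phi (T ∘ κ)) := by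
    have : IsTrans (Equiv.Perm μ.cells) (fun κ κ' => phi (T ∘ κ') < phi (T ∘ κ)) :=
      ⟨fun a b c h1 h2 => lt_trans h2 h1⟩
    have : Std.Irrefl (fun κ κ' : Equiv.Perm μ.cells => phi (T ∘ κ') < phi (T ∘ κ)) :=
      ⟨fun a h => lt_irrefl _ h⟩
    exact Finite.wellFounded_of_trans_of_irrefl _
  induction κ using hwf.induction with
  | _ κ ih =>
    have hns : ¬ ColStrict (T ∘ κ) := fun h => hne (eq_one_of_colStrict hT hκ h)
    unfold ColStrict at hns
    push Not at hns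
    obtain ⟨c, c', h1, h2, h3⟩ := hns
    have hcc : c ≠ c' := by rintro rfl; exact lt_irrefl _ h2
    have hlt : (T ∘ κ) c' < (T ∘ κ) c := by
      refine lt_of_le_of_ne h3 fun heq => ?_
      have hκ' := mem_colPerms.mp hκ
      rcases lt_trichotomy (κ c).1.1 (κ c').1.1 with h | h | h
      · have := hT _ _ (by rw [hκ', hκ', h1]) h
        simp only [Function.comp_apply] at heq
        rw [heq] at this
        exact lt_irrefl _ this
      · exact hcc (κ.injective (cell_ext h (by rw [hκ', hκ', h1])))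
      · have := hT _ _ (by rw [hκ', hκ', h1]) h
        simp only [Function.comp_apply] at heq
        rw [heq] at this
        exact lt_irrefl _ this
    have hsw := phi_swap (T ∘ κ) hcc
    have hpos : 0 < ((c'.1.1 : ℤ) - c.1.1) * (((T ∘ κ) c : ℤ) - (T ∘ κ) c') := by
      apply mul_pos
      · have : (c.1.1 : ℤ) < c'.1.1 := by exact_mod_cast h2
        linarith
      · have : ((T ∘ κ) c' : ℤ) < (T ∘ κ) c := by exact_mod_cast hlt
        linarith
    have hgt : phi (T ∘ κ) < phi (T ∘ (κ * Equiv.swap c c' : Equiv.Perm μ.cells)) := by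
      have : phi (T ∘ (κ * Equiv.swap c c' : Equiv.Perm μ.cells)) =
        phi ((T ∘ κ) ∘ Equiv.swap c c') := rfl
      rw [this, hsw]
      linarith
    by_cases hone : κ * Equiv.swap c c' = 1
    · rw [hone] at hgt
      simpa using hgt
    · exact lt_trans hgt (ih _ hgt (mul_mem_colPerms hκ (swap_mem_colPerms h1)) hone)

theorem exists_adjacent {T : Fill n μ}
    (h : ¬ ∀ c c' : μ.cells, c.1.1 = c'.1.1 → c.1.2 ≤ c'.1.2 → T c ≤ T c') :
    ∃ c c' : μ.cells, c.1.1 = c'.1.1 ∧ c'.1.2 = c.1.2 + 1 ∧ T c' < T c := by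
  by_contra hcon
  push Not at hcon
  apply h
  have key : ∀ m : ℕ, ∀ c c' : μ.cells, c.1.1 = c'.1.1 → c'.1.2 = c.1.2 + m → T c ≤ T c' := by
    intro m
    induction m with
    | zero =>
      intro c c' h1 h2
      rw [cell_ext h1 (by omega : c.1.2 = c'.1.2)]
    | succ m ih =>
      intro c c' h1 h2
      have hmem : (c'.1.1, c.1.2 + m) ∈ μ.cells :=
        (YoungDiagram.mem_cells _).mpr (μ.up_left_mem (i1 := c'.1.1) (i2 := c'.1.1)
          (j1 := c.1.2 + m) (j2 := c'.1.2) le_rfl (by rw [h2]; omega)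
          ((YoungDiagram.mem_cells _).mp c'.2))
      refine le_trans (ih c ⟨_, hmem⟩ h1 rfl) (hcon ⟨_, hmem⟩ c' rfl ?_)
      change c'.1.2 = c.1.2 + m + 1
      omega
  intro c c' h1 h2
  exact key (c'.1.2 - c.1.2) c c' h1 (by omega)

/-- The Garnir set at a cell. -/
def garnir (μ : YoungDiagram) (i j : ℕ) : Finset μ.cells :=
  Finset.univ.filter fun c => (c.1.2 = j ∧ i ≤ c.1.1) ∨ (c.1.2 = j + 1 ∧ c.1.1 ≤ i)

theorem mem_garnir {i j : ℕ} {c : μ.cells} : c ∈ garnir μ i j ↔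
    (c.1.2 = j ∧ i ≤ c.1.1) ∨ (c.1.2 = j + 1 ∧ c.1.1 ≤ i) := by simp [garnir]

theorem garnir_card {i j : ℕ} (h : (i, j + 1) ∈ μ) : μ.colLen j < (garnir μ i j).card := by
  classical
  have hi : i < μ.colLen j := YoungDiagram.mem_iff_lt_colLen.mp
    (μ.up_left_mem le_rfl (Nat.le_succ j) h)
  let F : Fin (μ.colLen j + 1) → μ.cells := fun k =>
    if hk : (k : ℕ) ≤ i then ⟨((k : ℕ), j + 1), (YoungDiagram.mem_cells _).mpr
      (μ.up_left_mem hk le_rfl h)⟩
    else ⟨((k : ℕ) - 1, j), (YoungDiagram.mem_cells _).mpr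
      (YoungDiagram.mem_iff_lt_colLen.mpr (by have := k.2; omega))⟩
  have hF : Function.Injective F := by
    intro a b hab
    apply Fin.ext
    simp only [F] at hab
    split_ifs at hab with ha hb hb
    · have := congrArg (fun c : μ.cells => c.1.1) hab
      simpa using this
    · have := congrArg (fun c : μ.cells => c.1.2) hab
      simp at this
    · have := congrArg (fun c : μ.cells => c.1.2) hab
      simp at this
    · have := congrArg (fun c : μ.cells => c.1.1) hab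
      simp only at this
      omega
  have hcard : (Finset.univ.image F).card = μ.colLen j + 1 := by
    rw [Finset.card_image_of_injective _ hF]
    simp
  have hsub : Finset.univ.image F ⊆ garnir μ i j := by
    intro c hc
    obtain ⟨k, -, rfl⟩ := Finset.mem_image.mp hc
    rw [mem_garnir]
    simp only [F]
    split_ifs with hk
    · right; exact ⟨rfl, hk⟩
    · left; exact ⟨rfl, by change i ≤ (k : ℕ) - 1; omega⟩
  have := Finset.card_le_card hsub
  omega

theorem garnir_bad {i j : ℕ} (h : (i, j + 1) ∈ μ) (κ : Equiv.Perm μ.cells)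
    (hκ : κ ∈ colPerms μ) : ∃ c ∈ garnir μ i j, ∃ c' ∈ garnir μ i j,
      c ≠ c' ∧ (κ c).1.1 = (κ c').1.1 := by
  rw [mem_colPerms] at hκ
  refine Finset.exists_ne_map_eq_of_card_lt_of_maps_to (t := Finset.range (μ.colLen j))
    (f := fun c => (κ c).1.1) (by simpa using garnir_card h) ?_
  intro c hc
  rw [Finset.mem_coe, mem_garnir] at hc
  rw [Finset.mem_coe, Finset.mem_range]
  have h1 : (κ c).1.1 < μ.colLen (κ c).1.2 := YoungDiagram.mem_iff_lt_colLen.mp
    ((YoungDiagram.mem_cells _).mp (κ c).2)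
  rw [hκ c] at h1
  refine lt_of_lt_of_le h1 (μ.colLen_anti _ _ ?_)
  omega

theorem psi_perm (T : Fill n μ) (σ : Equiv.Perm μ.cells) (t : ℤ) :
    psi (T ∘ σ) - psi T = ∑ c, (((σ⁻¹ c).1.2 : ℤ) - c.1.2) * ((T c : ℤ) - t) := by
  have h1 : psi (T ∘ σ) = ∑ c, ((σ⁻¹ c).1.2 : ℤ) * (T c : ℤ) := by
    rw [psi, ← Equiv.sum_comp σ fun c => ((σ⁻¹ c).1.2 : ℤ) * (T c : ℤ)]
    refine Finset.sum_congr rfl fun c _ => ?_
    rw [perm_inv_apply]
    rfl
  have h2 : ∑ c, (((σ⁻¹ c).1.2 : ℤ) - c.1.2) = 0 := by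
    rw [Finset.sum_sub_distrib, Equiv.sum_comp (σ⁻¹) fun c : μ.cells => (c.1.2 : ℤ), sub_self]
  have h3 : ∑ c, (((σ⁻¹ c).1.2 : ℤ) - c.1.2) * ((T c : ℤ) - t) =
      ∑ c, ((((σ⁻¹ c).1.2 : ℤ) * (T c : ℤ)) - (c.1.2 : ℤ) * (T c : ℤ)) -
        (∑ c, (((σ⁻¹ c).1.2 : ℤ) - c.1.2)) * t := by
    rw [Finset.sum_mul, ← Finset.sum_sub_distrib]
    refine Finset.sum_congr rfl fun c _ => ?_
    ring
  rw [h3, h2, zero_mul, sub_zero, Finset.sum_sub_distrib, h1, psi]

theorem exists_col_lt {σ : Equiv.Perm μ.cells} (h : σ ∉ colPerms μ) :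
    ∃ c, (σ⁻¹ c).1.2 < c.1.2 := by
  by_contra hcon
  push Not at hcon
  have h2 : ∑ c, (((σ⁻¹ c).1.2 : ℤ) - c.1.2) = 0 := by
    rw [Finset.sum_sub_distrib, Equiv.sum_comp (σ⁻¹) fun c : μ.cells => (c.1.2 : ℤ), sub_self]
  rw [Finset.sum_eq_zero_iff_of_nonneg] at h2
  · apply h
    rw [mem_colPerms]
    intro c
    have := h2 (σ c) (Finset.mem_univ _)
    rw [perm_inv_apply] at this
    omega
  · intro c _
    have := hcon c
    have h3 : (c.1.2 : ℤ) ≤ (σ⁻¹ c).1.2 := by exact_mod_cast this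
    linarith

theorem psi_garnir {T : Fill n μ} (hT : ColStrict T) {c1 c2 : μ.cells}
    (h1 : c1.1.1 = c2.1.1) (h2 : c2.1.2 = c1.1.2 + 1) (h3 : T c2 < T c1)
    {σ : Equiv.Perm μ.cells} (hσ : σ ∈ permsOn (garnir μ c1.1.1 c1.1.2))
    (hσ' : σ ∉ colPerms μ) : psi T < psi (T ∘ σ) := by
  have hinv : ∀ c, c ∉ garnir μ c1.1.1 c1.1.2 → σ⁻¹ c = c := by
    intro c hc
    rw [mem_permsOn] at hσ
    conv_lhs => rw [← hσ c hc]
    exact perm_inv_apply σ c
  have hmaps : ∀ c, c ∈ garnir μ c1.1.1 c1.1.2 → σ⁻¹ c ∈ garnir μ c1.1.1 c1.1.2 := by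
    intro c hc
    by_contra hcon
    rw [mem_permsOn] at hσ
    have := hσ _ hcon
    rw [perm_apply_inv] at this
    rw [← this] at hcon
    exact hcon hc
  have hX : ∀ c : μ.cells, c.1.2 = c1.1.2 → c1.1.1 ≤ c.1.1 → (T c1 : ℤ) ≤ T c := by
    intro c hc hc'
    rcases eq_or_lt_of_le hc' with h | h
    · rw [cell_ext h hc.symm]
    · have := hT c1 c hc.symm h
      exact_mod_cast this.le
  have hY : ∀ c : μ.cells, c.1.2 = c1.1.2 + 1 → c.1.1 ≤ c1.1.1 → (T c : ℤ) < T c1 := by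
    intro c hc hc'
    rcases eq_or_lt_of_le hc' with h | h
    · rw [cell_ext (h.trans h1) (hc.trans h2.symm)]
      exact_mod_cast h3
    · have := hT c c2 (hc.trans h2.symm) (h1 ▸ h)
      exact_mod_cast this.trans h3
  have key := psi_perm T σ (T c1 : ℤ)
  have hpos : 0 < ∑ c, (((σ⁻¹ c).1.2 : ℤ) - c.1.2) * ((T c : ℤ) - (T c1 : ℤ)) := by
    apply Finset.sum_pos'
    · intro c _
      by_cases hc : c ∈ garnir μ c1.1.1 c1.1.2
      · have hc' := hmaps c hc
        rw [mem_garnir] at hc hc'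
        rcases hc with ⟨ha, hb⟩ | ⟨ha, hb⟩
        · apply mul_nonneg
          · have : c.1.2 ≤ (σ⁻¹ c).1.2 := by omega
            have : (c.1.2 : ℤ) ≤ (σ⁻¹ c).1.2 := by exact_mod_cast this
            linarith
          · have := hX c ha hb
            linarith
        · apply mul_nonneg_of_nonpos_of_nonpos
          · have : (σ⁻¹ c).1.2 ≤ c.1.2 := by omega
            have : ((σ⁻¹ c).1.2 : ℤ) ≤ c.1.2 := by exact_mod_cast this
            linarith
          · have := hY c ha hb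
            linarith
      · rw [hinv c hc, sub_self, zero_mul]
    · obtain ⟨c, hc⟩ := exists_col_lt hσ'
      refine ⟨c, Finset.mem_univ _, ?_⟩
      have hcg : c ∈ garnir μ c1.1.1 c1.1.2 := by
        by_contra hcon
        rw [hinv c hcon] at hc
        exact lt_irrefl _ hc
      have hc' := hmaps c hcg
      rw [mem_garnir] at hcg hc'
      have ha : c.1.2 = c1.1.2 + 1 ∧ c.1.1 ≤ c1.1.1 := by omega
      apply mul_pos_of_neg_of_neg
      · have : ((σ⁻¹ c).1.2 : ℤ) < c.1.2 := by exact_mod_cast hc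
        linarith
      · have := hY c ha.1 ha.2
        linarith
  linarith

section Unique

variable {K : Type*} [Field K] {A : Type*} [AddCommGroup A] [Module K A]

theorem card_dvd_factorial (H : Subgroup (Equiv.Perm μ.cells)) :
    Nat.card H ∣ μ.card.factorial := by
  have h1 : Nat.card (Equiv.Perm μ.cells) = μ.card.factorial := by
    rw [Nat.card_eq_fintype_card, Fintype.card_perm, Fintype.card_coe]
  rw [← h1]
  exact Subgroup.card_subgroup_dvd_card H

theorem cast_ne_zero_of_dvd (hd : ((μ.card.factorial : ℕ) : K) ≠ 0) {N : ℕ}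
    (hN : N ∣ μ.card.factorial) : (N : K) ≠ 0 := by
  obtain ⟨m, hm⟩ := hN
  intro h
  apply hd
  rw [hm, Nat.cast_mul, h, zero_mul]

theorem two_dvd_factorial {c c' : μ.cells} (h : c ≠ c') : 2 ∣ μ.card.factorial := by
  have hcard : 2 ≤ μ.card := by
    have h1 : ({(c : ℕ × ℕ), (c' : ℕ × ℕ)} : Finset (ℕ × ℕ)) ⊆ μ.cells := by
      intro x hx
      rw [Finset.mem_insert, Finset.mem_singleton] at hx
      rcases hx with rfl | rfl
      · exact c.2
      · exact c'.2
    have h2 := Finset.card_le_card h1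
    rw [Finset.card_pair (fun hh => h (Subtype.ext hh))] at h2
    exact h2
  exact Nat.dvd_factorial (by norm_num) hcard

theorem rel_eq_zero_of_repeat (hd : ((μ.card.factorial : ℕ) : K) ≠ 0) {f : Fill n μ → A}
    (hf : IsRel f) {T : Fill n μ} {c c' : μ.cells} (hne : c ≠ c') (hcol : c.1.2 = c'.1.2)
    (hT : T c = T c') : f T = 0 := by
  have h1 := hf.1 _ (swap_mem_colPerms hcol) T
  have h2 : T ∘ Equiv.swap c c' = T := by
    funext x
    by_cases ha : x = c
    · rw [ha, Function.comp_apply, Equiv.swap_apply_left, hT]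
    by_cases hb : x = c'
    · rw [hb, Function.comp_apply, Equiv.swap_apply_right, hT]
    rw [Function.comp_apply, Equiv.swap_apply_of_ne_of_ne ha hb]
  rw [h2, Equiv.Perm.sign_swap hne] at h1
  simp only [Units.val_neg, Units.val_one, neg_smul, one_smul] at h1
  have h3 : (2 : K) • f T = 0 := by
    rw [two_smul]
    nth_rewrite 1 [h1]
    exact neg_add_cancel _
  have h4 : ((2 : ℕ) : K) ≠ 0 := cast_ne_zero_of_dvd hd (two_dvd_factorial hne)
  rw [Nat.cast_ofNat] at h4
  exact (smul_eq_zero.mp h3).resolve_left h4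

theorem sign_smul_sign_smul (σ : Equiv.Perm μ.cells) (a : A) :
    (Equiv.Perm.sign σ : ℤ) • ((Equiv.Perm.sign σ : ℤ) • a) = a := by
  rw [smul_smul, ← Units.val_mul, Int.units_mul_self, Units.val_one, one_smul]

/-- The group of column permutations supported in `Z`. -/
def colOn (Z : Finset μ.cells) : Subgroup (Equiv.Perm μ.cells) where
  carrier := {σ | σ ∈ permsOn Z ∧ σ ∈ colPerms μ}
  mul_mem' := by
    rintro a b ⟨ha, ha'⟩ ⟨hb, hb'⟩
    refine ⟨?_, mul_mem_colPerms ha' hb'⟩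
    rw [mem_permsOn] at *
    intro c hc
    rw [Equiv.Perm.mul_apply, hb c hc, ha c hc]
  one_mem' := ⟨by simp [mem_permsOn], by simp [mem_colPerms]⟩
  inv_mem' := by
    rintro a ⟨ha, ha'⟩
    refine ⟨?_, inv_mem_colPerms ha'⟩
    rw [mem_permsOn] at *
    intro c hc
    conv_lhs => rw [← ha c hc]
    exact perm_inv_apply a c

theorem rel_unique (hd : ((μ.card.factorial : ℕ) : K) ≠ 0) {f : Fill n μ → A}
    (hf : IsRel f) (h0 : ∀ T, IsSemistandard T → f T = 0) : ∀ T, f T = 0 := by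
  classical
  have hwf : WellFounded (fun T' T : Fill n μ => psi T < psi T' ∨
      (psi T = psi T' ∧ phi T < phi T')) := by
    have : IsTrans (Fill n μ) (fun T' T => psi T < psi T' ∨
      (psi T = psi T' ∧ phi T < phi T')) := ⟨fun a b c h1 h2 => by omega⟩
    have : Std.Irrefl (fun T' T : Fill n μ => psi T < psi T' ∨
      (psi T = psi T' ∧ phi T < phi T')) := ⟨fun a h => by omega⟩
    exact Finite.wellFounded_of_trans_of_irrefl _
  intro T
  induction T using hwf.induction with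
  | _ T ih =>
    by_cases hrep : ∃ c c' : μ.cells, c ≠ c' ∧ c.1.2 = c'.1.2 ∧ T c = T c'
    · obtain ⟨c, c', h1, h2, h3⟩ := hrep
      exact rel_eq_zero_of_repeat hd hf h1 h2 h3
    push Not at hrep
    by_cases hcol : ColStrict T
    · by_cases hss : IsSemistandard T
      · exact h0 T hss
      have hrow : ¬ ∀ c c' : μ.cells, c.1.1 = c'.1.1 → c.1.2 ≤ c'.1.2 → T c ≤ T c' :=
        fun h => hss ⟨h, hcol⟩
      obtain ⟨c1, c2, h1, h2, h3⟩ := exists_adjacent hrow
      have hmem : (c1.1.1, c1.1.2 + 1) ∈ μ := by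
        have := (YoungDiagram.mem_cells _).mp c2.2
        rwa [h1, ← h2]
      have hsum := hf.2 (garnir μ c1.1.1 c1.1.2) (fun κ hκ => garnir_bad hmem κ hκ) T
      have hsum2 : ∑ σ ∈ permsOn (garnir μ c1.1.1 c1.1.2),
          (Equiv.Perm.sign σ : ℤ) • f (T ∘ σ) =
          ∑ σ ∈ permsOn (garnir μ c1.1.1 c1.1.2), if σ ∈ colPerms μ then f T else 0 := by
        refine Finset.sum_congr rfl fun σ hσ => ?_
        split_ifs with hσc
        · rw [hf.1 σ hσc, sign_smul_sign_smul]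
        · rw [ih (T ∘ σ) (Or.inl (psi_garnir hcol h1 h2 h3 hσ hσc)), smul_zero]
      rw [hsum2, ← Finset.sum_filter, Finset.sum_const] at hsum
      set N := ((permsOn (garnir μ c1.1.1 c1.1.2)).filter (· ∈ colPerms μ)).card with hN
      have hNd : N ∣ μ.card.factorial := by
        have h4 : Nat.card (colOn (garnir μ c1.1.1 c1.1.2)) = N := by
          rw [hN]
          exact Nat.subtype_card _ fun σ => by
            rw [Finset.mem_filter]
            rfl
        rw [← h4]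
        exact card_dvd_factorial _
      have h5 : (N : K) • f T = 0 := by
        rw [Nat.cast_smul_eq_nsmul]
        exact hsum
      exact (smul_eq_zero.mp h5).resolve_left (cast_ne_zero_of_dvd hd hNd)
    · unfold ColStrict at hcol
      push Not at hcol
      obtain ⟨c, c', h1, h2, h3⟩ := hcol
      have hne : c ≠ c' := by rintro rfl; exact lt_irrefl _ h2
      have hlt : T c' < T c := lt_of_le_of_ne h3 (fun h => hrep c c' hne h1 h.symm)
      have hsw := phi_swap T hne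
      have hpos : 0 < ((c'.1.1 : ℤ) - c.1.1) * ((T c : ℤ) - T c') := by
        apply mul_pos
        · have : (c.1.1 : ℤ) < c'.1.1 := by exact_mod_cast h2
          linarith
        · have : (T c' : ℤ) < T c := by exact_mod_cast hlt
          linarith
      have h4 := ih (T ∘ Equiv.swap c c') (Or.inr ⟨(psi_col T (swap_mem_colPerms h1)).symm, by
        rw [hsw]; linarith⟩)
      have h5 := hf.1 _ (swap_mem_colPerms h1) T
      rw [h4] at h5
      have h6 := sign_smul_sign_smul (Equiv.swap c c') (f T)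
      rw [← h5, smul_zero] at h6
      exact h6.symm

end Unique

end Pool.Agent.Socle
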